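import Pool.Agent.L7h49.PM.Def

set_option autoImplicit false

/-!
# Project PM, quantitative form for graphs without a `K_5` minor

THEOREM. Let `G` be a connected graph (finite or infinite) without a `K_5` minor, `C ≥ 1`, and
`f : V → ℝ²` with `|‖f x - f y‖ - d(x, y)| < C` for all `x, y`, such that every point of the disc of
radius `R` is within `C` of the image of `f`. Then `R ≤ exp (4000000 C²)`: a graph without a `K_5` minor
(a planar graph) is roughly isometric to the disc of radius `R` with multiplicative constant 1 only with an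
additive error of at least `c √(log R)`.

The parts are adaptations of the parts of the first half of the project (same names without `B`, `F`).
-/

namespace Pool.Agent.L7h49.PM

/-- As `Rough`, but the image of `f` is only dense in the disc of radius `R`. -/
structure RoughB {V : Type} (G : SimpleGraph V) (f : V → E2) (C R : ℝ) : Prop where
  one : 1 ≤ C
  conn : G.Connected
  near : ∀ x y, |‖f x - f y‖ - (G.dist x y : ℝ)| < C
  net : ∀ p : E2, ‖p‖ ≤ R → ∃ x, ‖f x - p‖ < C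

/-- PART CONB (adapt L7h79/PM/Conn.lean): as S_CON for a set `A` in the disc of radius `R`. -/
def S_CONB : Prop :=
  ∀ (V : Type) (G : SimpleGraph V) (f : V → E2) (C R : ℝ), RoughB G f C R → ∀ A : Set E2,
    (∀ p ∈ A, ‖p‖ ≤ R) →
    (IsPreconnected A → A.Nonempty → (G.induce (Fat G f C A)).Connected) ∧
    ∀ w ∈ Fat G f C A, ∃ p ∈ A, ‖f w - p‖ ≤ 6 * C

/-- PART CROSSB (adapt L7h99/PM/Cross.lean; hypotheses S_CONB, S_MIN, S_REG, S_PLA, S_PLB): as S_CROSS.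
All the plane sets used there are in `[-L, 2L]²`, enlarged by `30C`, so in the disc of radius `4L`. -/
def S_CROSSB : Prop :=
  ∀ (V : Type) (G : SimpleGraph V) (f : V → E2) (C L : ℝ), RoughB G f C (4 * L) →
    ∀ y0 y1 t0 t1 : ℝ, Good L C y0 y1 t0 t1 →
    ∀ (a b c d : V) (P Q : Set V),
      ‖f a - pt 0 y0‖ ≤ C → ‖f b - pt 0 y1‖ ≤ C → ‖f c - pt L t1‖ ≤ C → ‖f d - pt L t0‖ ≤ C →
      a ∈ P → c ∈ P → b ∈ Q → d ∈ Q → (G.induce P).Connected → (G.induce Q).Connected →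
      Disjoint P Q →
      (∀ w ∈ P, ‖f w - f a‖ + ‖f w - f c‖ ≤ ‖f a - f c‖ + 3 * C) →
      (∀ w ∈ Q, ‖f w - f b‖ + ‖f w - f d‖ ≤ ‖f b - f d‖ + 3 * C) → HasK5Minor G

/-- PART MONB (adapt L7h66/PM/Mon.lean; hypothesis S_CROSSB): as S_MON. -/
def S_MONB : Prop :=
  ∀ (V : Type) (G : SimpleGraph V) (f : V → E2) (C L : ℝ), RoughB G f C (4 * L) →
    ¬ HasK5Minor G → ∀ y0 y1 t0 t1 : ℝ, Good L C y0 y1 t0 t1 →
    ∀ a b c d : V,
      ‖f a - pt 0 y0‖ ≤ C → ‖f b - pt 0 y1‖ ≤ C → ‖f c - pt L t1‖ ≤ C → ‖f d - pt L t0‖ ≤ C →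
      G.dist a d + G.dist b c ≤ G.dist a c + G.dist b d

/-- PART DISCF (adapt L7h78/PM/Disc.lean; hypothesis S_DIA): the finite form of S_DISC, on the dyadic
grid `j / 2^R`, for the `n` with `n h ≤ 2^R`. Proof as for S_DISC, with `N = ⌊2^R / (2h)⌋`:
`n_r` exists for all `r ≥ r0`, where `r0` is the least number with `2^(r0 - 2) ≥ 4K + h`, so
`2^r0 ≤ 8 (4K + h)`; if `r0 < R`, then `(R - r0) N / 2048 ≤ 2N · 4K²`, so `R - r0 ≤ 16384 K²` and
`2^R ≤ 8 (4K + h) 2^(16384 K²)`. -/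
def S_DISCF : Prop :=
  ∀ (R : ℕ) (g : ℕ → ℕ → ℤ) (h K : ℝ), 1 ≤ h →
    (∀ n j : ℕ, (n : ℝ) * h ≤ 2 ^ R → j ≤ 2 ^ R →
      |(g n j : ℝ) - n * h * ((j : ℝ) / 2 ^ R)| ≤ K) →
    (∀ m n i j : ℕ, m ≤ n → (n : ℝ) * h ≤ 2 ^ R → i ≤ j → j ≤ 2 ^ R →
      g n i - g m i ≤ g n j - g m j) →
    (2 : ℝ) ^ R ≤ (4 * K + h) * Real.exp (20000 * (K ^ 2 + 1))

/-- PART BUSB (adapt L7h89/PM/Bus.lean; hypotheses S_MONB, S_LIM, S_DISCF; no limits are needed).
Proof. We may assume `L ≥ 40000 C²` (otherwise `L ≤ exp (40000 C²)`). Take `R` with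
`4^R ≤ L/100 < 4^(R+1)`, `h = 20 C`, `x n` a vertex near `(0, 200 C n)` for `n h ≤ 2^R` (so
`y = 200 C n ≤ 10 · 2^R ≤ √L ≤ L/8`), `z j` a vertex near `(L, tau(s) L)`, `s = j / 2^R`,
`tau(s) = s / √(100 - s²)` (`≤ L/8`), and `g n j = d(x 0, z j) - d(x n, z j)`. By `near`, the triangle
inequality and S_LIM (`y²/L ≤ 1`) `|g n j - n h s| ≤ 6C + 1`. Monge: S_MONB; for `s < s'`,
`(tau(s') - tau(s)) L ≥ (s' - s) L / 10 ≥ L / (10 · 2^R) ≥ √L ≥ 200C`. S_DISCF with `K = 6C + 1`: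
`√L/20 < 2^R ≤ 48 C exp (20000 · 50 C²)`, so `L ≤ (960 C)² exp (2000000 C²) ≤ exp (3000000 C²)`. -/
def S_BUSB : Prop :=
  ∀ (V : Type) (G : SimpleGraph V) (f : V → E2) (C L : ℝ), RoughB G f C (4 * L) →
    ¬ HasK5Minor G → L ≤ Real.exp (3000000 * C ^ 2)

end Pool.Agent.L7h49.PM
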