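import Pool.Agent.L7h49.PM.Def2
import Pool.Agent.L7h49.PM.Def4

set_option autoImplicit false

/-!
# Project PM, quantitative form for graphs without a `K_t` minor

THEOREM. Let `G` be a connected graph (finite or infinite) without a `K_t` minor, `C ≥ 1`, and
`f : V → ℝ²` with `|‖f x - f y‖ - d(x, y)| < C` for all `x, y`, such that every point of the disc of
radius `D` is within `C` of the image of `f`. Then `D ≤ (t + 1)^4 exp (9000000 C²)`.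

The parts are adaptations of the parts of the second half of the project (same names without the last
`B`), for the disc of radius `D` instead of the plane: the only new thing is that one has to check that
all the points of the plane near which a vertex is needed, and all plane sets to which S_CONB is applied,
are in the disc (`‖pt x y‖ ≤ |x| + |y|`).
-/

namespace Pool.Agent.L7h49.PM

/-- PART GLUEB (adapt L7h29/PM/Glue.lean). -/
def S_GLUEB : Prop :=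
  ∀ (V : Type) (G : SimpleGraph V) (f : V → E2) (C D : ℝ), RoughB G f C D →
    ∀ (t : ℕ) (X X' : ℝ) (eta eta' : Fin t → ℝ) (B N : Fin t → Set V), St G f C X eta B →
      (∀ k, |X| + |eta k| ≤ D) →
      X + 20 * C ≤ X' → (∀ k l, k ≠ l → 200 * C ≤ |eta' k - eta' l|) →
      (∀ k, (G.induce (N k)).Connected) → (∀ k l, k ≠ l → Disjoint (N k) (N l)) →
      (∀ k, ∀ w ∈ N k, X - 7 * C ≤ f w 0 ∧ (f w 0 ≤ X + 7 * C → |f w 1 - eta k| ≤ 30 * C) ∧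
        f w 0 ≤ X' + 7 * C ∧ (X' - 7 * C ≤ f w 0 → |f w 1 - eta' k| ≤ 30 * C)) →
      (∀ k w, ‖f w - pt X (eta k)‖ ≤ C → w ∈ N k) →
      (∀ k w, ‖f w - pt X' (eta' k)‖ ≤ C → w ∈ N k) →
      St G f C X' eta' (fun k => B k ∪ N k)

/-- PART ROUTEB (adapt L7h46/PM/Route.lean; hypotheses S_CONB, S_GLUEB). -/
def S_ROUTEB : Prop :=
  ∀ (V : Type) (G : SimpleGraph V) (f : V → E2) (C D : ℝ), RoughB G f C D →
    ∀ (t : ℕ) (X X' : ℝ) (eta eta' : Fin t → ℝ) (B : Fin t → Set V), St G f C X eta B →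
      (∀ k, |X| + |X'| + |eta k| + |eta' k| ≤ D) →
      X + 100 * C ≤ X' → (∀ k, eta k ≤ eta' k) →
      (∀ k l, k ≠ l → eta' k + 200 * C ≤ eta l ∨ eta' l + 200 * C ≤ eta k) →
      ∃ B' : Fin t → Set V, (∀ k, B k ⊆ B' k) ∧ St G f C X' eta' B' ∧
        (∀ k, ∀ w ∈ B' k, w ∈ B k ∨ (eta k - 6 * C ≤ f w 1 ∧ f w 1 ≤ eta' k + 6 * C)) ∧
        ∀ k x w, X ≤ x → x ≤ X + 50 * C → ‖f w - pt x (eta k)‖ ≤ C → w ∈ B' k

/-- PART LIFTSB (adapt L7h29/PM/Lifts.lean; hypothesis S_ROUTEB). -/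
def S_LIFTSB : Prop :=
  ∀ (V : Type) (G : SimpleGraph V) (f : V → E2) (C D : ℝ), RoughB G f C D →
    ∀ (t : ℕ) (X theta H : ℝ) (eta : Fin t → ℝ) (B : Fin t → Set V), St G f C X eta B → 0 ≤ H →
      (∀ k, 2 * |X| + 2 * |eta k| + 200 * (t + 1) * C + 2 * H ≤ D) →
      ∃ B' : Fin t → Set V, (∀ k, B k ⊆ B' k) ∧
        St G f C (X + 100 * (t + 1) * C) (fun k => if theta < eta k then eta k + H else eta k) B'

/-- PART HOOKB (adapt L7h76/PM/Hook.lean; hypotheses S_CONB, S_ROUTEB, S_SPL). -/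
def S_HOOKB : Prop :=
  ∀ (V : Type) (G : SimpleGraph V) (f : V → E2) (C D : ℝ), RoughB G f C D →
    ∀ (t : ℕ) (X : ℝ) (eta : Fin t → ℝ) (B : Fin t → Set V) (i j : Fin t), St G f C X eta B →
      (∀ k, 2 * |X| + 2 * |eta k| + 100 * C ≤ D) →
      eta i < eta j → (∀ k, k ≠ i → k ≠ j → eta k < eta i ∨ eta j < eta k) →
      ∃ B' : Fin t → Set V, (∀ k, B k ⊆ B' k) ∧ St G f C (X + 100 * C) eta B' ∧
        ∃ u ∈ B' i, ∃ v ∈ B' j, G.Adj u v

/-- PART BUSQB (adapt L7h61/PM/Busq.lean and L7h42/PM/Busb.lean; hypotheses S_LIM, S_DISCF). There is a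
violation of the Monge inequality for EVERY large `L`. Proof: otherwise as in S_BUSB (no limits), with
`4^R ≤ L/400 < 4^(R+1)`, `h = 10 C`, the slopes `tau(s')`, `s' = (1 + s)/2`, `s = j / 2^R`, `x n` near
`(0, 200 C n)` for `n h ≤ 2^R` (`y = 200 C n ≤ 20 · 2^R ≤ √L ≤ L/1000`),
`g n j = (d(x 0, z j) - d(x n, z j)) - (d(x 0, z 0) - d(x n, z 0))`, `K = 12 C + 2`;
`(tau(s'_2) - tau(s'_1)) L ≥ L / (20 · 2^R) ≥ √L ≥ 200 C`. S_DISCF:
`√L/40 < 2^R ≤ 66 C exp (20000 · 197 C²)`, so `L < (2640 C)² exp (7880000 C²) < exp (8000000 C²)`. -/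
def S_BUSQB : Prop :=
  ∀ (V : Type) (G : SimpleGraph V) (f : V → E2) (C L : ℝ), RoughB G f C (4 * L) →
    Real.exp (8000000 * C ^ 2) ≤ L →
    ∃ (y0 y1 t0 t1 : ℝ) (a b c d : V), 0 ≤ y0 ∧ y0 + 200 * C ≤ y1 ∧ y1 ≤ L / 1000 ∧
      L / 20 ≤ t0 ∧ t0 + 200 * C ≤ t1 ∧ t1 ≤ L / 9 ∧
      ‖f a - pt 0 y0‖ ≤ C ∧ ‖f b - pt 0 y1‖ ≤ C ∧ ‖f c - pt L t1‖ ≤ C ∧ ‖f d - pt L t0‖ ≤ C ∧
      G.dist a c + G.dist b d < G.dist a d + G.dist b c

/-- PART XINGB (adapt L7h69/PM/Xing.lean; hypotheses S_BUSQB, S_RG2; `exp (8000000 C²) ≥ 10000 C`). -/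
def S_XINGB : Prop :=
  ∀ (V : Type) (G : SimpleGraph V) (f : V → E2) (C D : ℝ), RoughB G f C D → ∀ R W L : ℝ,
    Real.exp (8000000 * C ^ 2) ≤ L → |R| + |W| + 4 * L ≤ D →
    ∃ (y0 y1 t0 t1 : ℝ) (a b c d : V) (P Q : Set V), Xing G f C R W L y0 y1 t0 t1 a b c d P Q ∧
      y1 ≤ L / 1000 ∧ t1 ≤ L / 9

/-- PART CSTB (adapt L7h12/PM/Cst.lean; hypotheses S_CONB, S_GLUEB). -/
def S_CSTB : Prop :=
  ∀ (V : Type) (G : SimpleGraph V) (f : V → E2) (C D : ℝ), RoughB G f C D →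
    ∀ (t : ℕ) (R W L y0 y1 t0 t1 : ℝ) (a b c d : V) (P Q : Set V),
      Xing G f C R W L y0 y1 t0 t1 a b c d P Q → y1 ≤ L / 1000 → t1 ≤ L / 9 →
      ∀ (eta : Fin t → ℝ) (B : Fin t → Set V) (i j : Fin t), St G f C R eta B → i ≠ j →
        (∀ k, 2 * |R| + |W| + |eta k| + 3 * L ≤ D) →
        eta i = W + y0 → eta j = W + y1 →
        (∀ k, k ≠ i → k ≠ j → eta k ≤ W - 200 * C ∨ W + t1 + 200 * C ≤ eta k) →
        ∃ B' : Fin t → Set V, (∀ k, B k ⊆ B' k) ∧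
          St G f C (R + L) (fun k => if k = i then W + t1 else if k = j then W + t0 else eta k) B'

/-- PART SWAPB (adapt L7h66/PM/Swap.lean; hypotheses S_XINGB, S_LIFTSB, S_ROUTEB, S_CSTB). With
`1000 C ≤ L / 100`: `H = t1 + y1 + 1000 C ≤ L / 5`, `|W| = |eta j + 200 C| ≤ M + L`, the line `x = R` of the
crossing has `R = X + 100 (t + 5) C`, `|R| ≤ M + L`; all heights stay in `[-(M + L), M + L]`. -/
def S_SWAPB : Prop :=
  ∀ (V : Type) (G : SimpleGraph V) (f : V → E2) (C D : ℝ), RoughB G f C D →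
    ∀ (t : ℕ) (X M L : ℝ) (eta : Fin t → ℝ) (B : Fin t → Set V) (i j : Fin t),
      St G f C X eta B → |X| ≤ M → (∀ k, |eta k| ≤ M) → Real.exp (8000000 * C ^ 2) ≤ L →
      100 * (t + 5) * C ≤ L → 6 * M + 20 * L ≤ D →
      eta i < eta j → (∀ k, k ≠ i → k ≠ j → eta k < eta i ∨ eta j < eta k) →
      ∃ (X' : ℝ) (eta' : Fin t → ℝ) (B' : Fin t → Set V), (∀ k, B k ⊆ B' k) ∧
        St G f C X' eta' B' ∧ eta' j < eta' i ∧
        (∀ k, k ≠ i → k ≠ j → eta k < eta i → eta' k < eta' j) ∧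
        (∀ k, k ≠ i → k ≠ j → eta j < eta k → eta' i < eta' k) ∧
        (∀ k l, k ≠ i → k ≠ j → l ≠ i → l ≠ j → eta k < eta l → eta' k < eta' l) ∧
        |X'| ≤ M + 2 * L ∧ ∀ k, |eta' k| ≤ M + 2 * L

/-- PART NEIGHB (adapt L7h60/PM/Neigh.lean; hypotheses S_SWAPB, S_HOOKB). The number `m` of the tracks
between `i` and `j` is less than `t`; induction on `m`, with the bound `M + 2 (m + 1) L`. -/
def S_NEIGHB : Prop :=
  ∀ (V : Type) (G : SimpleGraph V) (f : V → E2) (C D : ℝ), RoughB G f C D →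
    ∀ (t : ℕ) (X M L : ℝ) (eta : Fin t → ℝ) (B : Fin t → Set V) (i j : Fin t),
      St G f C X eta B → i ≠ j → |X| ≤ M → (∀ k, |eta k| ≤ M) →
      Real.exp (8000000 * C ^ 2) ≤ L → 100 * (t + 5) * C ≤ L →
      6 * (M + 2 * (t + 1) * L) + 20 * L ≤ D →
      ∃ (X' : ℝ) (eta' : Fin t → ℝ) (B' : Fin t → Set V), (∀ k, B k ⊆ B' k) ∧
        St G f C X' eta' B' ∧ (∃ u ∈ B' i, ∃ v ∈ B' j, G.Adj u v) ∧
        |X'| ≤ M + 2 * (t + 1) * L ∧ ∀ k, |eta' k| ≤ M + 2 * (t + 1) * L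

/-- PART FINKB (adapt L7h93/PM/Fink.lean; hypotheses S_CONB, S_NEIGHB). First state: `X = 0`,
`eta k = 200 C k`, so `M = 2 L`; at most `t²` pairs, each adds `2 (t + 1) L` to the bound; in the end it
is at most `2 L + 2 t² (t + 1) L`. -/
def S_FINKB : Prop :=
  ∀ (V : Type) (G : SimpleGraph V) (f : V → E2) (C D : ℝ), RoughB G f C D → ∀ (t : ℕ) (L : ℝ),
    Real.exp (8000000 * C ^ 2) ≤ L → 100 * (t + 5) * C ≤ L → 60 * (t + 1) ^ 3 * L ≤ D →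
    HasKMinor G t

end Pool.Agent.L7h49.PM
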