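import Pool.Agent.L7h49.PM.Def

set_option autoImplicit false
set_option linter.unnecessarySeqFocus false
set_option linter.unusedTactic false
set_option linter.unreachableTactic false

/-! Part PLB of project PM: linear arithmetic. -/

namespace Pool.Agent.L7h49.PM

theorem reg_cases {L C y t X Y : ℝ} (h : Reg L C y t X Y) :
    (6 * C < X ∧ X < L - 6 * C ∧ -(4 / 5 * L) ≤ Y ∧ Y ≤ 4 / 5 * L) ∨
    (X ≤ 6 * C ∧ -(30 * C) ≤ X ∧ y - 30 * C ≤ Y ∧ Y ≤ y + 30 * C) ∨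
    (L - 6 * C ≤ X ∧ X ≤ L + 30 * C ∧ t - 30 * C ≤ Y ∧ Y ≤ t + 30 * C) := by
  obtain ⟨h1, h2, h3, h4, h5, -, h6, -⟩ := h
  by_cases a : X ≤ 6 * C
  · obtain ⟨b1, b2, b3, b4⟩ := h5 a
    exact Or.inr (Or.inl ⟨a, by linarith, by linarith, by linarith⟩)
  by_cases b : L - 6 * C ≤ X
  · obtain ⟨b1, b2, b3, b4⟩ := h6 b
    exact Or.inr (Or.inr ⟨b, by linarith, by linarith, by linarith⟩)
  exact Or.inl ⟨by linarith, by linarith, h3, h4⟩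


theorem p01_02 {L C y0 y1 t0 t1 X Y : ℝ} (hG : Good L C y0 y1 t0 t1)
    (h : crW L C y0 y1 t0 t1 (6 * C) 0 1 X Y)
    (h' : crW L C y0 y1 t0 t1 (6 * C) 0 2 X Y) : cr L C y0 y1 t0 t1 0 0 X Y := by
  obtain ⟨g1, g2, g3, g4, g5, g6, g7, g8⟩ := hG
  replace h' := reg_cases (y := y0) (t := t1) h'
  rcases h with ⟨a1, a2, a3, a4⟩ <;> rcases h' with ⟨b1, b2, b3, b4⟩ | ⟨b1, b2, b3, b4⟩ | ⟨b1, b2, b3, b4⟩ <;>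
    first
      | (exfalso; linarith)
      | (refine ⟨?_, ?_, ?_, ?_⟩ <;> linarith)


theorem p01_03 {L C y0 y1 t0 t1 X Y : ℝ} (hG : Good L C y0 y1 t0 t1)
    (h : crW L C y0 y1 t0 t1 (6 * C) 0 1 X Y)
    (h' : crW L C y0 y1 t0 t1 (6 * C) 0 3 X Y) : cr L C y0 y1 t0 t1 0 0 X Y := by
  obtain ⟨g1, g2, g3, g4, g5, g6, g7, g8⟩ := hG
  rcases h with ⟨a1, a2, a3, a4⟩ <;> rcases h' with ⟨b1, b2, b3, b4⟩ | ⟨b1, b2, b3, b4⟩ | ⟨b1, b2, b3, b4⟩ <;>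
    first
      | (exfalso; linarith)
      | (refine ⟨?_, ?_, ?_, ?_⟩ <;> linarith)


theorem p01_04 {L C y0 y1 t0 t1 X Y : ℝ} (hG : Good L C y0 y1 t0 t1)
    (h : crW L C y0 y1 t0 t1 (6 * C) 0 1 X Y)
    (h' : crW L C y0 y1 t0 t1 (6 * C) 0 4 X Y) : cr L C y0 y1 t0 t1 0 0 X Y := by
  obtain ⟨g1, g2, g3, g4, g5, g6, g7, g8⟩ := hG
  rcases h with ⟨a1, a2, a3, a4⟩ <;> rcases h' with ⟨b1, b2, b3, b4⟩ <;>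
    first
      | (exfalso; linarith)
      | (refine ⟨?_, ?_, ?_, ?_⟩ <;> linarith)


theorem p01_12 {L C y0 y1 t0 t1 X Y : ℝ} (hG : Good L C y0 y1 t0 t1)
    (h : crW L C y0 y1 t0 t1 (6 * C) 0 1 X Y)
    (h' : crW L C y0 y1 t0 t1 (6 * C) 1 2 X Y) : cr L C y0 y1 t0 t1 0 1 X Y := by
  obtain ⟨g1, g2, g3, g4, g5, g6, g7, g8⟩ := hG
  rcases h with ⟨a1, a2, a3, a4⟩ <;> rcases h' with ⟨b1, b2, b3, b4⟩ | ⟨b1, b2, b3, b4⟩ | ⟨b1, b2, b3, b4⟩ <;>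
    first
      | (exfalso; linarith)
      | (refine ⟨?_, ?_, ?_, ?_⟩ <;> linarith)


theorem p01_13 {L C y0 y1 t0 t1 X Y : ℝ} (hG : Good L C y0 y1 t0 t1)
    (h : crW L C y0 y1 t0 t1 (6 * C) 0 1 X Y)
    (h' : crW L C y0 y1 t0 t1 (6 * C) 1 3 X Y) : cr L C y0 y1 t0 t1 0 1 X Y := by
  obtain ⟨g1, g2, g3, g4, g5, g6, g7, g8⟩ := hG
  replace h' := reg_cases (y := y1) (t := t0) h'
  rcases h with ⟨a1, a2, a3, a4⟩ <;> rcases h' with ⟨b1, b2, b3, b4⟩ | ⟨b1, b2, b3, b4⟩ | ⟨b1, b2, b3, b4⟩ <;>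
    first
      | (exfalso; linarith)
      | (refine ⟨?_, ?_, ?_, ?_⟩ <;> linarith)


theorem p01_14 {L C y0 y1 t0 t1 X Y : ℝ} (hG : Good L C y0 y1 t0 t1)
    (h : crW L C y0 y1 t0 t1 (6 * C) 0 1 X Y)
    (h' : crW L C y0 y1 t0 t1 (6 * C) 1 4 X Y) : cr L C y0 y1 t0 t1 0 1 X Y := by
  obtain ⟨g1, g2, g3, g4, g5, g6, g7, g8⟩ := hG
  rcases h with ⟨a1, a2, a3, a4⟩ <;> rcases h' with ⟨b1, b2, b3, b4⟩ <;>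
    first
      | (exfalso; linarith)
      | (refine ⟨?_, ?_, ?_, ?_⟩ <;> linarith)


theorem p01_23 {L C y0 y1 t0 t1 X Y : ℝ} (hG : Good L C y0 y1 t0 t1)
    (h : crW L C y0 y1 t0 t1 (6 * C) 0 1 X Y)
    (h' : crW L C y0 y1 t0 t1 (6 * C) 2 3 X Y) : False := by
  obtain ⟨g1, g2, g3, g4, g5, g6, g7, g8⟩ := hG
  rcases h with ⟨a1, a2, a3, a4⟩ <;> rcases h' with ⟨b1, b2, b3, b4⟩ <;>
    linarith


theorem p01_24 {L C y0 y1 t0 t1 X Y : ℝ} (hG : Good L C y0 y1 t0 t1)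
    (h : crW L C y0 y1 t0 t1 (6 * C) 0 1 X Y)
    (h' : crW L C y0 y1 t0 t1 (6 * C) 2 4 X Y) : False := by
  obtain ⟨g1, g2, g3, g4, g5, g6, g7, g8⟩ := hG
  rcases h with ⟨a1, a2, a3, a4⟩ <;> rcases h' with ⟨b1, b2, b3, b4⟩ <;>
    linarith


theorem p01_34 {L C y0 y1 t0 t1 X Y : ℝ} (hG : Good L C y0 y1 t0 t1)
    (h : crW L C y0 y1 t0 t1 (6 * C) 0 1 X Y)
    (h' : crW L C y0 y1 t0 t1 (6 * C) 3 4 X Y) : False := by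
  obtain ⟨g1, g2, g3, g4, g5, g6, g7, g8⟩ := hG
  rcases h with ⟨a1, a2, a3, a4⟩ <;> rcases h' with ⟨b1, b2, b3, b4⟩ <;>
    linarith


theorem p02_03 {L C y0 y1 t0 t1 X Y : ℝ} (hG : Good L C y0 y1 t0 t1)
    (h : crW L C y0 y1 t0 t1 (6 * C) 0 2 X Y)
    (h' : crW L C y0 y1 t0 t1 (6 * C) 0 3 X Y) : cr L C y0 y1 t0 t1 0 0 X Y := by
  obtain ⟨g1, g2, g3, g4, g5, g6, g7, g8⟩ := hG
  replace h := reg_cases (y := y0) (t := t1) h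
  rcases h with ⟨a1, a2, a3, a4⟩ | ⟨a1, a2, a3, a4⟩ | ⟨a1, a2, a3, a4⟩ <;> rcases h' with ⟨b1, b2, b3, b4⟩ | ⟨b1, b2, b3, b4⟩ | ⟨b1, b2, b3, b4⟩ <;>
    first
      | (exfalso; linarith)
      | (refine ⟨?_, ?_, ?_, ?_⟩ <;> linarith)


theorem p02_04 {L C y0 y1 t0 t1 X Y : ℝ} (hG : Good L C y0 y1 t0 t1)
    (h : crW L C y0 y1 t0 t1 (6 * C) 0 2 X Y)
    (h' : crW L C y0 y1 t0 t1 (6 * C) 0 4 X Y) : cr L C y0 y1 t0 t1 0 0 X Y := by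
  obtain ⟨g1, g2, g3, g4, g5, g6, g7, g8⟩ := hG
  replace h := reg_cases (y := y0) (t := t1) h
  rcases h with ⟨a1, a2, a3, a4⟩ | ⟨a1, a2, a3, a4⟩ | ⟨a1, a2, a3, a4⟩ <;> rcases h' with ⟨b1, b2, b3, b4⟩ <;>
    first
      | (exfalso; linarith)
      | (refine ⟨?_, ?_, ?_, ?_⟩ <;> linarith)


theorem p02_12 {L C y0 y1 t0 t1 X Y : ℝ} (hG : Good L C y0 y1 t0 t1)
    (h : crW L C y0 y1 t0 t1 (6 * C) 0 2 X Y)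
    (h' : crW L C y0 y1 t0 t1 (6 * C) 1 2 X Y) : cr L C y0 y1 t0 t1 0 2 X Y := by
  obtain ⟨g1, g2, g3, g4, g5, g6, g7, g8⟩ := hG
  replace h := reg_cases (y := y0) (t := t1) h
  rcases h with ⟨a1, a2, a3, a4⟩ | ⟨a1, a2, a3, a4⟩ | ⟨a1, a2, a3, a4⟩ <;> rcases h' with ⟨b1, b2, b3, b4⟩ | ⟨b1, b2, b3, b4⟩ | ⟨b1, b2, b3, b4⟩ <;>
    first
      | (exfalso; linarith)
      | (refine ⟨?_, ?_, ?_, ?_⟩ <;> linarith)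


theorem p02_14 {L C y0 y1 t0 t1 X Y : ℝ} (hG : Good L C y0 y1 t0 t1)
    (h : crW L C y0 y1 t0 t1 (6 * C) 0 2 X Y)
    (h' : crW L C y0 y1 t0 t1 (6 * C) 1 4 X Y) : False := by
  obtain ⟨g1, g2, g3, g4, g5, g6, g7, g8⟩ := hG
  replace h := reg_cases (y := y0) (t := t1) h
  rcases h with ⟨a1, a2, a3, a4⟩ | ⟨a1, a2, a3, a4⟩ | ⟨a1, a2, a3, a4⟩ <;> rcases h' with ⟨b1, b2, b3, b4⟩ <;>
    linarith


theorem p02_23 {L C y0 y1 t0 t1 X Y : ℝ} (hG : Good L C y0 y1 t0 t1)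
    (h : crW L C y0 y1 t0 t1 (6 * C) 0 2 X Y)
    (h' : crW L C y0 y1 t0 t1 (6 * C) 2 3 X Y) : cr L C y0 y1 t0 t1 0 2 X Y := by
  obtain ⟨g1, g2, g3, g4, g5, g6, g7, g8⟩ := hG
  replace h := reg_cases (y := y0) (t := t1) h
  rcases h with ⟨a1, a2, a3, a4⟩ | ⟨a1, a2, a3, a4⟩ | ⟨a1, a2, a3, a4⟩ <;> rcases h' with ⟨b1, b2, b3, b4⟩ <;>
    first
      | (exfalso; linarith)
      | (refine ⟨?_, ?_, ?_, ?_⟩ <;> linarith)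


theorem p02_24 {L C y0 y1 t0 t1 X Y : ℝ} (hG : Good L C y0 y1 t0 t1)
    (h : crW L C y0 y1 t0 t1 (6 * C) 0 2 X Y)
    (h' : crW L C y0 y1 t0 t1 (6 * C) 2 4 X Y) : cr L C y0 y1 t0 t1 0 2 X Y := by
  obtain ⟨g1, g2, g3, g4, g5, g6, g7, g8⟩ := hG
  replace h := reg_cases (y := y0) (t := t1) h
  rcases h with ⟨a1, a2, a3, a4⟩ | ⟨a1, a2, a3, a4⟩ | ⟨a1, a2, a3, a4⟩ <;> rcases h' with ⟨b1, b2, b3, b4⟩ <;>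
    first
      | (exfalso; linarith)
      | (refine ⟨?_, ?_, ?_, ?_⟩ <;> linarith)


theorem p02_34 {L C y0 y1 t0 t1 X Y : ℝ} (hG : Good L C y0 y1 t0 t1)
    (h : crW L C y0 y1 t0 t1 (6 * C) 0 2 X Y)
    (h' : crW L C y0 y1 t0 t1 (6 * C) 3 4 X Y) : False := by
  obtain ⟨g1, g2, g3, g4, g5, g6, g7, g8⟩ := hG
  replace h := reg_cases (y := y0) (t := t1) h
  rcases h with ⟨a1, a2, a3, a4⟩ | ⟨a1, a2, a3, a4⟩ | ⟨a1, a2, a3, a4⟩ <;> rcases h' with ⟨b1, b2, b3, b4⟩ <;>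
    linarith


theorem p03_04 {L C y0 y1 t0 t1 X Y : ℝ} (hG : Good L C y0 y1 t0 t1)
    (h : crW L C y0 y1 t0 t1 (6 * C) 0 3 X Y)
    (h' : crW L C y0 y1 t0 t1 (6 * C) 0 4 X Y) : cr L C y0 y1 t0 t1 0 0 X Y := by
  obtain ⟨g1, g2, g3, g4, g5, g6, g7, g8⟩ := hG
  rcases h with ⟨a1, a2, a3, a4⟩ | ⟨a1, a2, a3, a4⟩ | ⟨a1, a2, a3, a4⟩ <;> rcases h' with ⟨b1, b2, b3, b4⟩ <;>
    first
      | (exfalso; linarith)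
      | (refine ⟨?_, ?_, ?_, ?_⟩ <;> linarith)


theorem p03_12 {L C y0 y1 t0 t1 X Y : ℝ} (hG : Good L C y0 y1 t0 t1)
    (h : crW L C y0 y1 t0 t1 (6 * C) 0 3 X Y)
    (h' : crW L C y0 y1 t0 t1 (6 * C) 1 2 X Y) : False := by
  obtain ⟨g1, g2, g3, g4, g5, g6, g7, g8⟩ := hG
  rcases h with ⟨a1, a2, a3, a4⟩ | ⟨a1, a2, a3, a4⟩ | ⟨a1, a2, a3, a4⟩ <;> rcases h' with ⟨b1, b2, b3, b4⟩ | ⟨b1, b2, b3, b4⟩ | ⟨b1, b2, b3, b4⟩ <;>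
    linarith


theorem p03_13 {L C y0 y1 t0 t1 X Y : ℝ} (hG : Good L C y0 y1 t0 t1)
    (h : crW L C y0 y1 t0 t1 (6 * C) 0 3 X Y)
    (h' : crW L C y0 y1 t0 t1 (6 * C) 1 3 X Y) : cr L C y0 y1 t0 t1 0 3 X Y := by
  obtain ⟨g1, g2, g3, g4, g5, g6, g7, g8⟩ := hG
  replace h' := reg_cases (y := y1) (t := t0) h'
  rcases h with ⟨a1, a2, a3, a4⟩ | ⟨a1, a2, a3, a4⟩ | ⟨a1, a2, a3, a4⟩ <;> rcases h' with ⟨b1, b2, b3, b4⟩ | ⟨b1, b2, b3, b4⟩ | ⟨b1, b2, b3, b4⟩ <;>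
    first
      | (exfalso; linarith)
      | (refine ⟨?_, ?_, ?_, ?_⟩ <;> linarith)


theorem p03_14 {L C y0 y1 t0 t1 X Y : ℝ} (hG : Good L C y0 y1 t0 t1)
    (h : crW L C y0 y1 t0 t1 (6 * C) 0 3 X Y)
    (h' : crW L C y0 y1 t0 t1 (6 * C) 1 4 X Y) : False := by
  obtain ⟨g1, g2, g3, g4, g5, g6, g7, g8⟩ := hG
  rcases h with ⟨a1, a2, a3, a4⟩ | ⟨a1, a2, a3, a4⟩ | ⟨a1, a2, a3, a4⟩ <;> rcases h' with ⟨b1, b2, b3, b4⟩ <;>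
    linarith


theorem p03_23 {L C y0 y1 t0 t1 X Y : ℝ} (hG : Good L C y0 y1 t0 t1)
    (h : crW L C y0 y1 t0 t1 (6 * C) 0 3 X Y)
    (h' : crW L C y0 y1 t0 t1 (6 * C) 2 3 X Y) : cr L C y0 y1 t0 t1 0 3 X Y := by
  obtain ⟨g1, g2, g3, g4, g5, g6, g7, g8⟩ := hG
  rcases h with ⟨a1, a2, a3, a4⟩ | ⟨a1, a2, a3, a4⟩ | ⟨a1, a2, a3, a4⟩ <;> rcases h' with ⟨b1, b2, b3, b4⟩ <;>
    first
      | (exfalso; linarith)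
      | (refine ⟨?_, ?_, ?_, ?_⟩ <;> linarith)


theorem p03_24 {L C y0 y1 t0 t1 X Y : ℝ} (hG : Good L C y0 y1 t0 t1)
    (h : crW L C y0 y1 t0 t1 (6 * C) 0 3 X Y)
    (h' : crW L C y0 y1 t0 t1 (6 * C) 2 4 X Y) : False := by
  obtain ⟨g1, g2, g3, g4, g5, g6, g7, g8⟩ := hG
  rcases h with ⟨a1, a2, a3, a4⟩ | ⟨a1, a2, a3, a4⟩ | ⟨a1, a2, a3, a4⟩ <;> rcases h' with ⟨b1, b2, b3, b4⟩ <;>
    linarith


theorem p03_34 {L C y0 y1 t0 t1 X Y : ℝ} (hG : Good L C y0 y1 t0 t1)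
    (h : crW L C y0 y1 t0 t1 (6 * C) 0 3 X Y)
    (h' : crW L C y0 y1 t0 t1 (6 * C) 3 4 X Y) : cr L C y0 y1 t0 t1 0 3 X Y := by
  obtain ⟨g1, g2, g3, g4, g5, g6, g7, g8⟩ := hG
  rcases h with ⟨a1, a2, a3, a4⟩ | ⟨a1, a2, a3, a4⟩ | ⟨a1, a2, a3, a4⟩ <;> rcases h' with ⟨b1, b2, b3, b4⟩ <;>
    first
      | (exfalso; linarith)
      | (refine ⟨?_, ?_, ?_, ?_⟩ <;> linarith)


theorem p04_12 {L C y0 y1 t0 t1 X Y : ℝ} (hG : Good L C y0 y1 t0 t1)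
    (h : crW L C y0 y1 t0 t1 (6 * C) 0 4 X Y)
    (h' : crW L C y0 y1 t0 t1 (6 * C) 1 2 X Y) : False := by
  obtain ⟨g1, g2, g3, g4, g5, g6, g7, g8⟩ := hG
  rcases h with ⟨a1, a2, a3, a4⟩ <;> rcases h' with ⟨b1, b2, b3, b4⟩ | ⟨b1, b2, b3, b4⟩ | ⟨b1, b2, b3, b4⟩ <;>
    linarith


theorem p04_13 {L C y0 y1 t0 t1 X Y : ℝ} (hG : Good L C y0 y1 t0 t1)
    (h : crW L C y0 y1 t0 t1 (6 * C) 0 4 X Y)
    (h' : crW L C y0 y1 t0 t1 (6 * C) 1 3 X Y) : False := by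
  obtain ⟨g1, g2, g3, g4, g5, g6, g7, g8⟩ := hG
  replace h' := reg_cases (y := y1) (t := t0) h'
  rcases h with ⟨a1, a2, a3, a4⟩ <;> rcases h' with ⟨b1, b2, b3, b4⟩ | ⟨b1, b2, b3, b4⟩ | ⟨b1, b2, b3, b4⟩ <;>
    linarith


theorem p04_14 {L C y0 y1 t0 t1 X Y : ℝ} (hG : Good L C y0 y1 t0 t1)
    (h : crW L C y0 y1 t0 t1 (6 * C) 0 4 X Y)
    (h' : crW L C y0 y1 t0 t1 (6 * C) 1 4 X Y) : False := by
  obtain ⟨g1, g2, g3, g4, g5, g6, g7, g8⟩ := hG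
  rcases h with ⟨a1, a2, a3, a4⟩ <;> rcases h' with ⟨b1, b2, b3, b4⟩ <;>
    linarith


theorem p04_23 {L C y0 y1 t0 t1 X Y : ℝ} (hG : Good L C y0 y1 t0 t1)
    (h : crW L C y0 y1 t0 t1 (6 * C) 0 4 X Y)
    (h' : crW L C y0 y1 t0 t1 (6 * C) 2 3 X Y) : False := by
  obtain ⟨g1, g2, g3, g4, g5, g6, g7, g8⟩ := hG
  rcases h with ⟨a1, a2, a3, a4⟩ <;> rcases h' with ⟨b1, b2, b3, b4⟩ <;>
    linarith


theorem p04_24 {L C y0 y1 t0 t1 X Y : ℝ} (hG : Good L C y0 y1 t0 t1)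
    (h : crW L C y0 y1 t0 t1 (6 * C) 0 4 X Y)
    (h' : crW L C y0 y1 t0 t1 (6 * C) 2 4 X Y) : False := by
  obtain ⟨g1, g2, g3, g4, g5, g6, g7, g8⟩ := hG
  rcases h with ⟨a1, a2, a3, a4⟩ <;> rcases h' with ⟨b1, b2, b3, b4⟩ <;>
    linarith


theorem p04_34 {L C y0 y1 t0 t1 X Y : ℝ} (hG : Good L C y0 y1 t0 t1)
    (h : crW L C y0 y1 t0 t1 (6 * C) 0 4 X Y)
    (h' : crW L C y0 y1 t0 t1 (6 * C) 3 4 X Y) : False := by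
  obtain ⟨g1, g2, g3, g4, g5, g6, g7, g8⟩ := hG
  rcases h with ⟨a1, a2, a3, a4⟩ <;> rcases h' with ⟨b1, b2, b3, b4⟩ <;>
    linarith


theorem p12_13 {L C y0 y1 t0 t1 X Y : ℝ} (hG : Good L C y0 y1 t0 t1)
    (h : crW L C y0 y1 t0 t1 (6 * C) 1 2 X Y)
    (h' : crW L C y0 y1 t0 t1 (6 * C) 1 3 X Y) : cr L C y0 y1 t0 t1 0 1 X Y := by
  obtain ⟨g1, g2, g3, g4, g5, g6, g7, g8⟩ := hG
  replace h' := reg_cases (y := y1) (t := t0) h'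
  rcases h with ⟨a1, a2, a3, a4⟩ | ⟨a1, a2, a3, a4⟩ | ⟨a1, a2, a3, a4⟩ <;> rcases h' with ⟨b1, b2, b3, b4⟩ | ⟨b1, b2, b3, b4⟩ | ⟨b1, b2, b3, b4⟩ <;>
    first
      | (exfalso; linarith)
      | (refine ⟨?_, ?_, ?_, ?_⟩ <;> linarith)


theorem p12_14 {L C y0 y1 t0 t1 X Y : ℝ} (hG : Good L C y0 y1 t0 t1)
    (h : crW L C y0 y1 t0 t1 (6 * C) 1 2 X Y)
    (h' : crW L C y0 y1 t0 t1 (6 * C) 1 4 X Y) : cr L C y0 y1 t0 t1 0 1 X Y := by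
  obtain ⟨g1, g2, g3, g4, g5, g6, g7, g8⟩ := hG
  rcases h with ⟨a1, a2, a3, a4⟩ | ⟨a1, a2, a3, a4⟩ | ⟨a1, a2, a3, a4⟩ <;> rcases h' with ⟨b1, b2, b3, b4⟩ <;>
    first
      | (exfalso; linarith)
      | (refine ⟨?_, ?_, ?_, ?_⟩ <;> linarith)


theorem p12_23 {L C y0 y1 t0 t1 X Y : ℝ} (hG : Good L C y0 y1 t0 t1)
    (h : crW L C y0 y1 t0 t1 (6 * C) 1 2 X Y)
    (h' : crW L C y0 y1 t0 t1 (6 * C) 2 3 X Y) : cr L C y0 y1 t0 t1 0 2 X Y := by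
  obtain ⟨g1, g2, g3, g4, g5, g6, g7, g8⟩ := hG
  rcases h with ⟨a1, a2, a3, a4⟩ | ⟨a1, a2, a3, a4⟩ | ⟨a1, a2, a3, a4⟩ <;> rcases h' with ⟨b1, b2, b3, b4⟩ <;>
    first
      | (exfalso; linarith)
      | (refine ⟨?_, ?_, ?_, ?_⟩ <;> linarith)


theorem p12_24 {L C y0 y1 t0 t1 X Y : ℝ} (hG : Good L C y0 y1 t0 t1)
    (h : crW L C y0 y1 t0 t1 (6 * C) 1 2 X Y)
    (h' : crW L C y0 y1 t0 t1 (6 * C) 2 4 X Y) : cr L C y0 y1 t0 t1 0 2 X Y := by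
  obtain ⟨g1, g2, g3, g4, g5, g6, g7, g8⟩ := hG
  rcases h with ⟨a1, a2, a3, a4⟩ | ⟨a1, a2, a3, a4⟩ | ⟨a1, a2, a3, a4⟩ <;> rcases h' with ⟨b1, b2, b3, b4⟩ <;>
    first
      | (exfalso; linarith)
      | (refine ⟨?_, ?_, ?_, ?_⟩ <;> linarith)


theorem p12_34 {L C y0 y1 t0 t1 X Y : ℝ} (hG : Good L C y0 y1 t0 t1)
    (h : crW L C y0 y1 t0 t1 (6 * C) 1 2 X Y)
    (h' : crW L C y0 y1 t0 t1 (6 * C) 3 4 X Y) : False := by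
  obtain ⟨g1, g2, g3, g4, g5, g6, g7, g8⟩ := hG
  rcases h with ⟨a1, a2, a3, a4⟩ | ⟨a1, a2, a3, a4⟩ | ⟨a1, a2, a3, a4⟩ <;> rcases h' with ⟨b1, b2, b3, b4⟩ <;>
    linarith


theorem p13_14 {L C y0 y1 t0 t1 X Y : ℝ} (hG : Good L C y0 y1 t0 t1)
    (h : crW L C y0 y1 t0 t1 (6 * C) 1 3 X Y)
    (h' : crW L C y0 y1 t0 t1 (6 * C) 1 4 X Y) : cr L C y0 y1 t0 t1 0 1 X Y := by
  obtain ⟨g1, g2, g3, g4, g5, g6, g7, g8⟩ := hG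
  replace h := reg_cases (y := y1) (t := t0) h
  rcases h with ⟨a1, a2, a3, a4⟩ | ⟨a1, a2, a3, a4⟩ | ⟨a1, a2, a3, a4⟩ <;> rcases h' with ⟨b1, b2, b3, b4⟩ <;>
    first
      | (exfalso; linarith)
      | (refine ⟨?_, ?_, ?_, ?_⟩ <;> linarith)


theorem p13_23 {L C y0 y1 t0 t1 X Y : ℝ} (hG : Good L C y0 y1 t0 t1)
    (h : crW L C y0 y1 t0 t1 (6 * C) 1 3 X Y)
    (h' : crW L C y0 y1 t0 t1 (6 * C) 2 3 X Y) : cr L C y0 y1 t0 t1 0 3 X Y := by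
  obtain ⟨g1, g2, g3, g4, g5, g6, g7, g8⟩ := hG
  replace h := reg_cases (y := y1) (t := t0) h
  rcases h with ⟨a1, a2, a3, a4⟩ | ⟨a1, a2, a3, a4⟩ | ⟨a1, a2, a3, a4⟩ <;> rcases h' with ⟨b1, b2, b3, b4⟩ <;>
    first
      | (exfalso; linarith)
      | (refine ⟨?_, ?_, ?_, ?_⟩ <;> linarith)


theorem p13_24 {L C y0 y1 t0 t1 X Y : ℝ} (hG : Good L C y0 y1 t0 t1)
    (h : crW L C y0 y1 t0 t1 (6 * C) 1 3 X Y)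
    (h' : crW L C y0 y1 t0 t1 (6 * C) 2 4 X Y) : False := by
  obtain ⟨g1, g2, g3, g4, g5, g6, g7, g8⟩ := hG
  replace h := reg_cases (y := y1) (t := t0) h
  rcases h with ⟨a1, a2, a3, a4⟩ | ⟨a1, a2, a3, a4⟩ | ⟨a1, a2, a3, a4⟩ <;> rcases h' with ⟨b1, b2, b3, b4⟩ <;>
    linarith


theorem p13_34 {L C y0 y1 t0 t1 X Y : ℝ} (hG : Good L C y0 y1 t0 t1)
    (h : crW L C y0 y1 t0 t1 (6 * C) 1 3 X Y)
    (h' : crW L C y0 y1 t0 t1 (6 * C) 3 4 X Y) : cr L C y0 y1 t0 t1 0 3 X Y := by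
  obtain ⟨g1, g2, g3, g4, g5, g6, g7, g8⟩ := hG
  replace h := reg_cases (y := y1) (t := t0) h
  rcases h with ⟨a1, a2, a3, a4⟩ | ⟨a1, a2, a3, a4⟩ | ⟨a1, a2, a3, a4⟩ <;> rcases h' with ⟨b1, b2, b3, b4⟩ <;>
    first
      | (exfalso; linarith)
      | (refine ⟨?_, ?_, ?_, ?_⟩ <;> linarith)


theorem p14_23 {L C y0 y1 t0 t1 X Y : ℝ} (hG : Good L C y0 y1 t0 t1)
    (h : crW L C y0 y1 t0 t1 (6 * C) 1 4 X Y)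
    (h' : crW L C y0 y1 t0 t1 (6 * C) 2 3 X Y) : False := by
  obtain ⟨g1, g2, g3, g4, g5, g6, g7, g8⟩ := hG
  rcases h with ⟨a1, a2, a3, a4⟩ <;> rcases h' with ⟨b1, b2, b3, b4⟩ <;>
    linarith


theorem p14_24 {L C y0 y1 t0 t1 X Y : ℝ} (hG : Good L C y0 y1 t0 t1)
    (h : crW L C y0 y1 t0 t1 (6 * C) 1 4 X Y)
    (h' : crW L C y0 y1 t0 t1 (6 * C) 2 4 X Y) : False := by
  obtain ⟨g1, g2, g3, g4, g5, g6, g7, g8⟩ := hG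
  rcases h with ⟨a1, a2, a3, a4⟩ <;> rcases h' with ⟨b1, b2, b3, b4⟩ <;>
    linarith


theorem p14_34 {L C y0 y1 t0 t1 X Y : ℝ} (hG : Good L C y0 y1 t0 t1)
    (h : crW L C y0 y1 t0 t1 (6 * C) 1 4 X Y)
    (h' : crW L C y0 y1 t0 t1 (6 * C) 3 4 X Y) : False := by
  obtain ⟨g1, g2, g3, g4, g5, g6, g7, g8⟩ := hG
  rcases h with ⟨a1, a2, a3, a4⟩ <;> rcases h' with ⟨b1, b2, b3, b4⟩ <;>
    linarith


theorem p23_24 {L C y0 y1 t0 t1 X Y : ℝ} (hG : Good L C y0 y1 t0 t1)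
    (h : crW L C y0 y1 t0 t1 (6 * C) 2 3 X Y)
    (h' : crW L C y0 y1 t0 t1 (6 * C) 2 4 X Y) : cr L C y0 y1 t0 t1 0 2 X Y := by
  obtain ⟨g1, g2, g3, g4, g5, g6, g7, g8⟩ := hG
  rcases h with ⟨a1, a2, a3, a4⟩ <;> rcases h' with ⟨b1, b2, b3, b4⟩ <;>
    first
      | (exfalso; linarith)
      | (refine ⟨?_, ?_, ?_, ?_⟩ <;> linarith)


theorem p23_34 {L C y0 y1 t0 t1 X Y : ℝ} (hG : Good L C y0 y1 t0 t1)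
    (h : crW L C y0 y1 t0 t1 (6 * C) 2 3 X Y)
    (h' : crW L C y0 y1 t0 t1 (6 * C) 3 4 X Y) : cr L C y0 y1 t0 t1 0 3 X Y := by
  obtain ⟨g1, g2, g3, g4, g5, g6, g7, g8⟩ := hG
  rcases h with ⟨a1, a2, a3, a4⟩ <;> rcases h' with ⟨b1, b2, b3, b4⟩ <;>
    first
      | (exfalso; linarith)
      | (refine ⟨?_, ?_, ?_, ?_⟩ <;> linarith)


theorem p24_34 {L C y0 y1 t0 t1 X Y : ℝ} (hG : Good L C y0 y1 t0 t1)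
    (h : crW L C y0 y1 t0 t1 (6 * C) 2 4 X Y)
    (h' : crW L C y0 y1 t0 t1 (6 * C) 3 4 X Y) : False := by
  obtain ⟨g1, g2, g3, g4, g5, g6, g7, g8⟩ := hG
  rcases h with ⟨a1, a2, a3, a4⟩ <;> rcases h' with ⟨b1, b2, b3, b4⟩ <;>
    linarith


theorem s_PLB : S_PLB := by
  intro L C y0 y1 t0 t1 X Y hG i j k l hij hkl hne hn1 hn2 h h'
  have cases : ∀ a b : Fin 5, a < b → (a = 0 ∧ b = 1) ∨ (a = 0 ∧ b = 2) ∨ (a = 0 ∧ b = 3) ∨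
      (a = 0 ∧ b = 4) ∨ (a = 1 ∧ b = 2) ∨ (a = 1 ∧ b = 3) ∨ (a = 1 ∧ b = 4) ∨
      (a = 2 ∧ b = 3) ∨ (a = 2 ∧ b = 4) ∨ (a = 3 ∧ b = 4) := by decide
  rcases cases i j hij with ⟨rfl, rfl⟩ | ⟨rfl, rfl⟩ | ⟨rfl, rfl⟩ | ⟨rfl, rfl⟩ | ⟨rfl, rfl⟩ |
    ⟨rfl, rfl⟩ | ⟨rfl, rfl⟩ | ⟨rfl, rfl⟩ | ⟨rfl, rfl⟩ | ⟨rfl, rfl⟩
  · rcases cases k l hkl with ⟨rfl, rfl⟩ | ⟨rfl, rfl⟩ | ⟨rfl, rfl⟩ | ⟨rfl, rfl⟩ | ⟨rfl, rfl⟩ |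
      ⟨rfl, rfl⟩ | ⟨rfl, rfl⟩ | ⟨rfl, rfl⟩ | ⟨rfl, rfl⟩ | ⟨rfl, rfl⟩
    · exact absurd rfl hne
    · exact Or.inl (p01_02 hG h h')
    · exact Or.inl (p01_03 hG h h')
    · exact Or.inl (p01_04 hG h h')
    · exact Or.inr (p01_12 hG h h')
    · exact Or.inr (p01_13 hG h h')
    · exact Or.inr (p01_14 hG h h')
    · exact (p01_23 hG h h').elim
    · exact (p01_24 hG h h').elim
    · exact (p01_34 hG h h').elim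
  · rcases cases k l hkl with ⟨rfl, rfl⟩ | ⟨rfl, rfl⟩ | ⟨rfl, rfl⟩ | ⟨rfl, rfl⟩ | ⟨rfl, rfl⟩ |
      ⟨rfl, rfl⟩ | ⟨rfl, rfl⟩ | ⟨rfl, rfl⟩ | ⟨rfl, rfl⟩ | ⟨rfl, rfl⟩
    · exact Or.inl (p01_02 hG h' h)
    · exact absurd rfl hne
    · exact Or.inl (p02_03 hG h h')
    · exact Or.inl (p02_04 hG h h')
    · exact Or.inr (p02_12 hG h h')
    · exact absurd ⟨rfl, rfl, rfl, rfl⟩ hn1
    · exact (p02_14 hG h h').elim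
    · exact Or.inr (p02_23 hG h h')
    · exact Or.inr (p02_24 hG h h')
    · exact (p02_34 hG h h').elim
  · rcases cases k l hkl with ⟨rfl, rfl⟩ | ⟨rfl, rfl⟩ | ⟨rfl, rfl⟩ | ⟨rfl, rfl⟩ | ⟨rfl, rfl⟩ |
      ⟨rfl, rfl⟩ | ⟨rfl, rfl⟩ | ⟨rfl, rfl⟩ | ⟨rfl, rfl⟩ | ⟨rfl, rfl⟩
    · exact Or.inl (p01_03 hG h' h)
    · exact Or.inl (p02_03 hG h' h)
    · exact absurd rfl hne
    · exact Or.inl (p03_04 hG h h')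
    · exact (p03_12 hG h h').elim
    · exact Or.inr (p03_13 hG h h')
    · exact (p03_14 hG h h').elim
    · exact Or.inr (p03_23 hG h h')
    · exact (p03_24 hG h h').elim
    · exact Or.inr (p03_34 hG h h')
  · rcases cases k l hkl with ⟨rfl, rfl⟩ | ⟨rfl, rfl⟩ | ⟨rfl, rfl⟩ | ⟨rfl, rfl⟩ | ⟨rfl, rfl⟩ |
      ⟨rfl, rfl⟩ | ⟨rfl, rfl⟩ | ⟨rfl, rfl⟩ | ⟨rfl, rfl⟩ | ⟨rfl, rfl⟩
    · exact Or.inl (p01_04 hG h' h)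
    · exact Or.inl (p02_04 hG h' h)
    · exact Or.inl (p03_04 hG h' h)
    · exact absurd rfl hne
    · exact (p04_12 hG h h').elim
    · exact (p04_13 hG h h').elim
    · exact (p04_14 hG h h').elim
    · exact (p04_23 hG h h').elim
    · exact (p04_24 hG h h').elim
    · exact (p04_34 hG h h').elim
  · rcases cases k l hkl with ⟨rfl, rfl⟩ | ⟨rfl, rfl⟩ | ⟨rfl, rfl⟩ | ⟨rfl, rfl⟩ | ⟨rfl, rfl⟩ |
      ⟨rfl, rfl⟩ | ⟨rfl, rfl⟩ | ⟨rfl, rfl⟩ | ⟨rfl, rfl⟩ | ⟨rfl, rfl⟩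
    · exact Or.inl (p01_12 hG h' h)
    · exact Or.inr (p02_12 hG h' h)
    · exact (p03_12 hG h' h).elim
    · exact (p04_12 hG h' h).elim
    · exact absurd rfl hne
    · exact Or.inl (p12_13 hG h h')
    · exact Or.inl (p12_14 hG h h')
    · exact Or.inr (p12_23 hG h h')
    · exact Or.inr (p12_24 hG h h')
    · exact (p12_34 hG h h').elim
  · rcases cases k l hkl with ⟨rfl, rfl⟩ | ⟨rfl, rfl⟩ | ⟨rfl, rfl⟩ | ⟨rfl, rfl⟩ | ⟨rfl, rfl⟩ |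
      ⟨rfl, rfl⟩ | ⟨rfl, rfl⟩ | ⟨rfl, rfl⟩ | ⟨rfl, rfl⟩ | ⟨rfl, rfl⟩
    · exact Or.inl (p01_13 hG h' h)
    · exact absurd ⟨rfl, rfl, rfl, rfl⟩ hn2
    · exact Or.inr (p03_13 hG h' h)
    · exact (p04_13 hG h' h).elim
    · exact Or.inl (p12_13 hG h' h)
    · exact absurd rfl hne
    · exact Or.inl (p13_14 hG h h')
    · exact Or.inr (p13_23 hG h h')
    · exact (p13_24 hG h h').elim
    · exact Or.inr (p13_34 hG h h')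
  · rcases cases k l hkl with ⟨rfl, rfl⟩ | ⟨rfl, rfl⟩ | ⟨rfl, rfl⟩ | ⟨rfl, rfl⟩ | ⟨rfl, rfl⟩ |
      ⟨rfl, rfl⟩ | ⟨rfl, rfl⟩ | ⟨rfl, rfl⟩ | ⟨rfl, rfl⟩ | ⟨rfl, rfl⟩
    · exact Or.inl (p01_14 hG h' h)
    · exact (p02_14 hG h' h).elim
    · exact (p03_14 hG h' h).elim
    · exact (p04_14 hG h' h).elim
    · exact Or.inl (p12_14 hG h' h)
    · exact Or.inl (p13_14 hG h' h)
    · exact absurd rfl hne
    · exact (p14_23 hG h h').elim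
    · exact (p14_24 hG h h').elim
    · exact (p14_34 hG h h').elim
  · rcases cases k l hkl with ⟨rfl, rfl⟩ | ⟨rfl, rfl⟩ | ⟨rfl, rfl⟩ | ⟨rfl, rfl⟩ | ⟨rfl, rfl⟩ |
      ⟨rfl, rfl⟩ | ⟨rfl, rfl⟩ | ⟨rfl, rfl⟩ | ⟨rfl, rfl⟩ | ⟨rfl, rfl⟩
    · exact (p01_23 hG h' h).elim
    · exact Or.inl (p02_23 hG h' h)
    · exact Or.inr (p03_23 hG h' h)
    · exact (p04_23 hG h' h).elim
    · exact Or.inl (p12_23 hG h' h)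
    · exact Or.inr (p13_23 hG h' h)
    · exact (p14_23 hG h' h).elim
    · exact absurd rfl hne
    · exact Or.inl (p23_24 hG h h')
    · exact Or.inr (p23_34 hG h h')
  · rcases cases k l hkl with ⟨rfl, rfl⟩ | ⟨rfl, rfl⟩ | ⟨rfl, rfl⟩ | ⟨rfl, rfl⟩ | ⟨rfl, rfl⟩ |
      ⟨rfl, rfl⟩ | ⟨rfl, rfl⟩ | ⟨rfl, rfl⟩ | ⟨rfl, rfl⟩ | ⟨rfl, rfl⟩
    · exact (p01_24 hG h' h).elim
    · exact Or.inl (p02_24 hG h' h)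
    · exact (p03_24 hG h' h).elim
    · exact (p04_24 hG h' h).elim
    · exact Or.inl (p12_24 hG h' h)
    · exact (p13_24 hG h' h).elim
    · exact (p14_24 hG h' h).elim
    · exact Or.inl (p23_24 hG h' h)
    · exact absurd rfl hne
    · exact (p24_34 hG h h').elim
  · rcases cases k l hkl with ⟨rfl, rfl⟩ | ⟨rfl, rfl⟩ | ⟨rfl, rfl⟩ | ⟨rfl, rfl⟩ | ⟨rfl, rfl⟩ |
      ⟨rfl, rfl⟩ | ⟨rfl, rfl⟩ | ⟨rfl, rfl⟩ | ⟨rfl, rfl⟩ | ⟨rfl, rfl⟩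
    · exact (p01_34 hG h' h).elim
    · exact (p02_34 hG h' h).elim
    · exact Or.inl (p03_34 hG h' h)
    · exact (p04_34 hG h' h).elim
    · exact (p12_34 hG h' h).elim
    · exact Or.inl (p13_34 hG h' h)
    · exact (p14_34 hG h' h).elim
    · exact Or.inl (p23_34 hG h' h)
    · exact (p24_34 hG h' h).elim
    · exact absurd rfl hne

end Pool.Agent.L7h49.PM
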