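import Mathlib

set_option autoImplicit false

/-!
# Project PM (MP_8ede36_co, Kozma's question): graphs without a K5 minor

THEOREM. No connected graph without a `K_5` minor (of any degrees; in particular no planar graph) is
roughly isometric to the Euclidean plane with multiplicative constant 1.

PLAN. Suppose `G` is such a graph, `f : V → ℝ²`. Sources `x_i` near `(0, iH)`, targets `z` near
`(L, tau L)`. If the geodesics `x_i -- z'` and `x_j -- z` (`i < j`, `z` below `z'`: they cross) had no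
common vertex, there would be a `K_5` minor (S_CROSS: the two geodesics, squares at the four ends,
coarse tubes along the sides of a big square, four spokes and an outer hub). So they have a common
vertex and `d(x_i,z) + d(x_j,z') ≤ d(x_i,z') + d(x_j,z)` (S_MON). The limits `L → ∞` give INTEGERS
`g n s` (`n : ℕ`, `s ∈ [0,1]`) with `|g n s - n h s| ≤ K` and `g n s - g m s` monotone in `s` for
`m ≤ n` (S_BUS); this contradicts the theorem of van Aardenne-Ehrenfest and Roth on irregularities of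
distribution (S_DISC).
-/

namespace Pool.Agent.L7h49.PM

/-- The Euclidean plane. -/
abbrev E2 : Type := EuclideanSpace ℝ (Fin 2)

/-- `G` has a `K_5` minor: five pairwise disjoint connected vertex sets, any two of them joined by an
edge. -/
def HasK5Minor {V : Type} (G : SimpleGraph V) : Prop :=
  ∃ B : Fin 5 → Set V, (∀ i, (G.induce (B i)).Connected) ∧
    (∀ i j, i ≠ j → Disjoint (B i) (B j)) ∧
    ∀ i j, i ≠ j → ∃ u ∈ B i, ∃ v ∈ B j, G.Adj u v

/-- `G` is connected and `f` is a rough isometry to the plane with multiplicative constant `1` and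
additive constant `C ≥ 1`. -/
structure Rough {V : Type} (G : SimpleGraph V) (f : V → E2) (C : ℝ) : Prop where
  one : 1 ≤ C
  conn : G.Connected
  near : ∀ x y, |‖f x - f y‖ - (G.dist x y : ℝ)| < C
  net : ∀ p : E2, ∃ x, ‖f x - p‖ < C

/-- The point `(a, b)`. -/
noncomputable def pt (a b : ℝ) : E2 := !₂[a, b]

/-- The coarse neighbourhood of a set `A` of points of the plane, a set of vertices. -/
def Fat {V : Type} (G : SimpleGraph V) (f : V → E2) (C : ℝ) (A : Set E2) : Set V :=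
  {w | ∃ u, (∃ p ∈ A, ‖f u - p‖ ≤ C) ∧ (G.dist u w : ℝ) ≤ 4 * C}

/-- PART CON (100 lines). `Fat A` is connected if `A` is, and lies in the `6C`-neighbourhood of `A`.
Proof. (1) `w ∈ Fat A`, `u`, `p` as in the definition: `‖f u - f w‖ ≤ dist u w + C ≤ 5C`.
(2) Every vertex of a geodesic from such a `u` to a vertex `v` with `dist u v ≤ 4C` is in `Fat A` (its
distance from `u` is at most `dist u v`; Walk.takeUntil). (3) `IsPreconnected.induction₂` with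
`P p q := ∀ u v, ‖f u - p‖ ≤ C → ‖f v - q‖ ≤ C → u and v are reachable in G.induce (Fat A)`:
for `‖p - q‖ ≤ C` one has `‖f u - f v‖ ≤ 3C`, `dist u v ≤ 4C` and (2) applies; transitivity by `net`.
(`net` also gives a vertex near a point of `A`: nonempty.) (4) `w ∈ Fat A` is reachable from its `u` by
(2). -/
def S_CON : Prop :=
  ∀ (V : Type) (G : SimpleGraph V) (f : V → E2) (C : ℝ), Rough G f C → ∀ A : Set E2,
    (IsPreconnected A → A.Nonempty → (G.induce (Fat G f C A)).Connected) ∧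
    ∀ w ∈ Fat G f C A, ∃ p ∈ A, ‖f w - p‖ ≤ 6 * C

/-- PART MIN (130 lines). A `K_5` model from five connected sets and ten connecting sets.
Proof. For `i < j` take a walk in `G.induce (W i j)` from a vertex of `B i` to a vertex of `B j` and
let `X i j` be the set of its vertices before the first one in `B j` (induction on the walk: for a walk
of a graph from a vertex not in `T` to a vertex in `T` there is a set `X` contained in its support,
connected, containing the start, disjoint from `T`, with an edge from `X` to `T`).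
`X i j ⊆ W i j`, `X i j ∩ B j = ∅`, it meets `B i`. The branch sets are `B i ∪ ⋃_{j > i} X i j`:
connected (connected sets which meet `B i`); disjoint: `B i ∩ B k = ∅`; `X i j ∩ B k ⊆ W i j ∩ B k = ∅`
for `k ≠ i, j` and `X i k ∩ B k = ∅`; a vertex of `X i j ∩ X k l` with `i ≠ k` is, by the last
hypothesis (used twice), in `B i ∪ B j` and in `B k ∪ B l`, not in `B j`, not in `B l`, so in
`B i ∩ B k = ∅`. The edge from `X i j` to `B j` joins the branch sets `i < j`. -/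
def S_MIN : Prop :=
  ∀ (V : Type) (G : SimpleGraph V) (B : Fin 5 → Set V) (W : Fin 5 → Fin 5 → Set V),
    (∀ i, (G.induce (B i)).Connected) → (∀ i j, i ≠ j → Disjoint (B i) (B j)) →
    (∀ i j, i < j → (G.induce (W i j)).Connected ∧ (W i j ∩ B i).Nonempty ∧
      (W i j ∩ B j).Nonempty ∧ ∀ k, k ≠ i → k ≠ j → Disjoint (W i j) (B k)) →
    (∀ i j k l, i < j → k < l → (i, j) ≠ (k, l) → W i j ∩ W k l ⊆ B i ∪ B j) →
    HasK5Minor G

/-- The fattened box `[x1 - k, x2 + k] × [y1 - k, y2 + k]`. -/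
def bx (k x1 x2 y1 y2 X Y : ℝ) : Prop := x1 - k ≤ X ∧ X ≤ x2 + k ∧ y1 - k ≤ Y ∧ Y ≤ y2 + k

/-- Where a geodesic from `(0, y)` to `(L, t)` can be. -/
def Reg (L C y t X Y : ℝ) : Prop :=
  -(7 * C) ≤ X ∧ X ≤ L + 7 * C ∧ -(4 / 5 * L) ≤ Y ∧ Y ≤ 4 / 5 * L ∧
  (X ≤ 6 * C → bx (30 * C) 0 0 y y X Y) ∧ (X ≤ 36 * C → y - 80 * C ≤ Y ∧ Y ≤ y + 80 * C) ∧
  (L - 6 * C ≤ X → bx (30 * C) L L t t X Y) ∧
  (L - 36 * C ≤ X → t - 80 * C ≤ Y ∧ Y ≤ t + 80 * C)

/-- The parameters are as required: `y0 < y1` are the heights of the two sources on the line `x = 0`,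
`t0 < t1` the heights of the two targets on the line `x = L`. -/
structure Good (L C y0 y1 t0 t1 : ℝ) : Prop where
  one : 1 ≤ C
  large : 1000 * C ≤ L
  y : y0 + 200 * C ≤ y1
  t : t0 + 200 * C ≤ t1
  y0 : -(L / 8) ≤ y0
  y1 : y1 ≤ L / 8
  t0 : -(L / 8) ≤ t0
  t1 : t1 ≤ L / 8

/-- PART REG (100 lines). Points `w` of the thin ellipse with foci `a` near `(0, y)` and `c` near
`(L, t)`. Proof. `e = (c - a)/‖c - a‖` has `e_x^2 + e_y^2 = 1` and `|e_y| ≤ e_x / 3`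
(`|c_y - a_y| ≤ L/4 + 2C ≤ (L - 2C)/3 ≤ (c_x - a_x)/3`), so `9/10 ≤ e_x ≤ 1`, `|e_y| ≤ 1/3`.
`⟨w - a, e⟩ = ‖c - a‖ - ⟨c - w, e⟩ ≥ ‖c - a‖ - ‖c - w‖ ≥ ‖w - a‖ - 3C`. With `rho = ‖w - a‖`:
`(w - a)_x e_x ≥ rho - 3C - rho |e_y| ≥ (2/3) rho - 3C`, hence `(w - a)_x ≥ (3/5) rho - 6C` (two cases
by the sign of the right side). In the same way `c_x - w_x ≥ (3/5) ‖w - c‖ - 6C`. All claims follow:
e.g. `X ≤ 6C` gives `(3/5) rho ≤ 6C + C + 6C`, `rho ≤ 22C`, so `|Y - y| ≤ 23C`; `X ≤ 36C` gives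
`rho ≤ 72C`, `|Y - y| ≤ 73C`. Height: `rho + ‖w - c‖ ≤ ‖a - c‖ + 3C ≤ (L + 2C) + (L/4 + 2C) + 3C`, so
one of the two is at most `(5/8) L + (7/2) C`, and `|Y| ≤ L/8 + C + (5/8) L + (7/2) C ≤ (4/5) L`. -/
def S_REG : Prop :=
  ∀ (L C y t : ℝ) (a c w : E2), 1 ≤ C → 1000 * C ≤ L → |y| ≤ L / 8 → |t| ≤ L / 8 →
    ‖a - pt 0 y‖ ≤ C → ‖c - pt L t‖ ≤ C → ‖w - a‖ + ‖w - c‖ ≤ ‖a - c‖ + 3 * C →
    Reg L C y t (w 0) (w 1)

/-- The five centres, fattened by `k`: squares around `a = (0, y0)`, `b = (0, y1)`, `c = (L, t1)`,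
`d = (L, t0)` and the hub. -/
def cr (L C y0 y1 t0 t1 k : ℝ) : Fin 5 → ℝ → ℝ → Prop
  | 0 => fun X Y => bx (30 * C + k) 0 0 y0 y0 X Y
  | 1 => fun X Y => bx (30 * C + k) 0 0 y1 y1 X Y
  | 2 => fun X Y => bx (30 * C + k) L L t1 t1 X Y
  | 3 => fun X Y => bx (30 * C + k) L L t0 t0 X Y
  | 4 => fun X Y => bx k (-L) (-L) (-L) (2 * L) X Y ∨ bx k (-L) (2 * L) (2 * L) (2 * L) X Y ∨
      bx k (2 * L) (2 * L) (-L) (2 * L) X Y

/-- The ten connections, fattened by `k`; the connections `0 2` and `1 3` are the geodesics. -/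
def crW (L C y0 y1 t0 t1 k : ℝ) : Fin 5 → Fin 5 → ℝ → ℝ → Prop
  | 0, 1 => fun X Y => bx k 0 0 y0 y1 X Y
  | 0, 2 => fun X Y => Reg L C y0 t1 X Y
  | 0, 3 => fun X Y => bx k 0 0 (-L) y0 X Y ∨ bx k 0 L (-L) (-L) X Y ∨ bx k L L (-L) t0 X Y
  | 0, 4 => fun X Y => bx k (-L) 0 y0 y0 X Y
  | 1, 2 => fun X Y => bx k 0 0 y1 L X Y ∨ bx k 0 L L L X Y ∨ bx k L L t1 L X Y
  | 1, 3 => fun X Y => Reg L C y1 t0 X Y
  | 1, 4 => fun X Y => bx k (-L) 0 y1 y1 X Y
  | 2, 3 => fun X Y => bx k L L t0 t1 X Y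
  | 2, 4 => fun X Y => bx k L (2 * L) t1 t1 X Y
  | 3, 4 => fun X Y => bx k L (2 * L) t0 t0 X Y
  | _, _ => fun _ _ => False

/-- PART PLA (linear arithmetic). The centres are disjoint. -/
def S_PLA : Prop :=
  ∀ (L C y0 y1 t0 t1 X Y : ℝ), Good L C y0 y1 t0 t1 →
    (∀ i j, i ≠ j → cr L C y0 y1 t0 t1 (6 * C) i X Y → ¬ cr L C y0 y1 t0 t1 (6 * C) j X Y) ∧
    ∀ i j k, i < j → k ≠ i → k ≠ j → crW L C y0 y1 t0 t1 (6 * C) i j X Y →
      ¬ cr L C y0 y1 t0 t1 (6 * C) k X Y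

/-- PART PLB (linear arithmetic). The connections meet only near their common ends (the two
geodesics excepted). -/
def S_PLB : Prop :=
  ∀ (L C y0 y1 t0 t1 X Y : ℝ), Good L C y0 y1 t0 t1 →
    ∀ i j k l, i < j → k < l → (i, j) ≠ (k, l) → ¬ (i = 0 ∧ j = 2 ∧ k = 1 ∧ l = 3) →
      ¬ (i = 1 ∧ j = 3 ∧ k = 0 ∧ l = 2) →
      crW L C y0 y1 t0 t1 (6 * C) i j X Y → crW L C y0 y1 t0 t1 (6 * C) k l X Y →
      cr L C y0 y1 t0 t1 0 i X Y ∨ cr L C y0 y1 t0 t1 0 j X Y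

/-- PART CROSS (200 lines; uses S_CON, S_MIN, S_REG, S_PLA, S_PLB). Two disjoint crossing geodesics
give a `K_5` minor. Proof: `S_MIN` with `B i = Fat {p | cr .. 0 i (p 0) (p 1)}`,
`W i j = Fat {p | crW .. 0 i j (p 0) (p 1)}` except `W 0 2 = P`, `W 1 3 = Q`. A box is convex, so
preconnected; the unions of boxes are chains (`IsPreconnected.union` at a corner). For `w ∈ Fat A`:
`f w` is within `6C` of `A`, so its coordinates satisfy the fattened predicate (`k = 6C`); if `f w` is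
in `A` then `w ∈ Fat A` (take `u = w`). `P` and `Q` are in `Reg` by S_REG. `W i j` meets `B i`, `B j`:
a vertex near a common point of the two plane sets (e.g. near `(0, y0)`), resp. `a`, `c`, `b`, `d`. -/
def S_CROSS : Prop :=
  ∀ (V : Type) (G : SimpleGraph V) (f : V → E2) (C : ℝ), Rough G f C →
    ∀ L y0 y1 t0 t1 : ℝ, Good L C y0 y1 t0 t1 →
    ∀ (a b c d : V) (P Q : Set V),
      ‖f a - pt 0 y0‖ ≤ C → ‖f b - pt 0 y1‖ ≤ C → ‖f c - pt L t1‖ ≤ C → ‖f d - pt L t0‖ ≤ C →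
      a ∈ P → c ∈ P → b ∈ Q → d ∈ Q → (G.induce P).Connected → (G.induce Q).Connected →
      Disjoint P Q →
      (∀ w ∈ P, ‖f w - f a‖ + ‖f w - f c‖ ≤ ‖f a - f c‖ + 3 * C) →
      (∀ w ∈ Q, ‖f w - f b‖ + ‖f w - f d‖ ≤ ‖f b - f d‖ + 3 * C) → HasK5Minor G

/-- PART MON (70 lines; uses S_CROSS). Crossing geodesics have a common vertex, so the Monge
inequality holds. Proof: take shortest walks `p` from `a` to `c` and `q` from `b` to `d`. If a vertex
`w` is on both: `d(a,d) ≤ d(a,w) + d(w,d)`, `d(b,c) ≤ d(b,w) + d(w,c)`, and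
`d(a,w) + d(w,c) = d(a,c)`, `d(b,w) + d(w,d) = d(b,d)` (takeUntil, dropUntil). Otherwise S_CROSS with
the supports of the walks (`SimpleGraph.Walk.connected_induce_support`): for `w` on `p`
`‖f w - f a‖ + ‖f w - f c‖ ≤ d(w,a) + d(w,c) + 2C = d(a,c) + 2C ≤ ‖f a - f c‖ + 3C`. -/
def S_MON : Prop :=
  ∀ (V : Type) (G : SimpleGraph V) (f : V → E2) (C : ℝ), Rough G f C → ¬ HasK5Minor G →
    ∀ L y0 y1 t0 t1 : ℝ, Good L C y0 y1 t0 t1 →
    ∀ a b c d : V,
      ‖f a - pt 0 y0‖ ≤ C → ‖f b - pt 0 y1‖ ≤ C → ‖f c - pt L t1‖ ≤ C → ‖f d - pt L t0‖ ≤ C →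
      G.dist a d + G.dist b c ≤ G.dist a c + G.dist b d

/-- PART LIM (60 lines). The limit of a difference of distances: for `y ≥ 0`, `0 ≤ s ≤ 1`,
`tau = s / √(100 - s²)` and `L ≥ 2y`, `L > 0`:
`|‖(L, tau L)‖ - ‖(L, tau L - y)‖ - y s / 10| ≤ y² / L`.
Proof: `A = ‖(L, tau L)‖ = L √(1 + tau²)`, `tau / √(1 + tau²) = s / 10 =: e`. `B = ‖(L, tau L - y)‖`,
`B² = (A - y e)² + y² (1 - e²)`. So `B ≥ A - y e` and `B ≤ (A - y e) + y² / (2 (A - y e))` with
`A - y e ≥ L - y ≥ L / 2`. -/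
def S_LIM : Prop :=
  ∀ y s L : ℝ, 0 ≤ y → 0 ≤ s → s ≤ 1 → 0 < L → 2 * y ≤ L →
    |‖pt 0 0 - pt L (s / √(100 - s ^ 2) * L)‖ - ‖pt 0 y - pt L (s / √(100 - s ^ 2) * L)‖
      - y * s / 10| ≤ y ^ 2 / L

/-- PART DISC (200 lines). Irregularities of distribution (van Aardenne-Ehrenfest; Roth's method).
Proof. `E_{a,n}(s) = g (a+n) s - g a s - n h s`, so `|E_{a,n}(s)| ≤ 2K` and
`E_{a,n} = E_{0,a+n} - E_{0,a}`. Fix `R`. For `r ≤ R` and `k < 2^r` let `A_r(k)` be the average of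
`E(j/2^R)` over the `2^(R-r)` integers `j` with `k 2^(R-r) ≤ j < (k+1) 2^(R-r)`; so
`A_r(k) = (A_{r+1}(2k) + A_{r+1}(2k+1))/2`; put
`D_r(E) = 2^(-r) ∑_{k < 2^r} ((A_{r+1}(2k) - A_{r+1}(2k+1))/2)²`, `e_r = 2^(-r) ∑_{k<2^r} A_r(k)²`.
Then `e_{r+1} - e_r = D_r ≥ 0`, so `∑_{r<R} D_r(E) ≤ e_R ≤ (sup |E|)² ≤ 4K²`. (*)
LOWER BOUND: let `n h + 4K ≤ 2^(r-1)` and `n h ≥ 2^(r-2)` (there is such an `n = n_r` for all
`r ≥ r0(h, K)`). The `2^r` integers `(g (a+n) - g a)((k+1)/2^r) - (g (a+n) - g a)(k/2^r) ≥ 0` have sum at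
most `n h + 4K ≤ 2^(r-1)`, so at least `2^(r-1)` of them are zero; if it is zero for `k`, then
`g (a+n) - g a` is constant on `[k/2^r, (k+1)/2^r]` (monotone), `E` is linear with slope `- n h` there and
`A_{r+1}(2k) - A_{r+1}(2k+1) = n h 2^(-r-1) ≥ 1/8`. So `D_r(E_{a,n}) ≥ 2^(-r) 2^(r-1) (1/16)² = 1/512`.
SUM: `D_r` is a quadratic form: `D_r(E - E') ≤ 2 D_r(E) + 2 D_r(E')`. So for `N ≥ n_r` for all `r < R`:
`N/512 ≤ ∑_{a<N} D_r(E_{a,n_r}) ≤ 4 ∑_{a<2N} D_r(E_{0,a})`, and by (*)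
`(R - r0) N / 2048 ≤ ∑_{a<2N} ∑_{r<R} D_r(E_{0,a}) ≤ 2N · 4K²`: false for large `R`. -/
def S_DISC : Prop :=
  ∀ (g : ℕ → ℝ → ℤ) (h K : ℝ), 0 < h →
    (∀ n s, 0 ≤ s → s ≤ 1 → |(g n s : ℝ) - n * h * s| ≤ K) →
    (∀ m n s t, m ≤ n → 0 ≤ s → s ≤ t → t ≤ 1 → g n s - g m s ≤ g n t - g m t) → False

/-- PART DIA (a first half of DISC, 80 lines): the energy inequality (*) for a function on a dyadic
grid. `A` is the table of the averages. -/
def S_DIA : Prop :=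
  ∀ (R : ℕ) (A : ℕ → ℕ → ℝ) (M : ℝ), 0 ≤ M → (∀ k < 2 ^ R, |A R k| ≤ M) →
    (∀ r < R, ∀ k < 2 ^ r, A r k = (A (r + 1) (2 * k) + A (r + 1) (2 * k + 1)) / 2) →
    ∑ r ∈ Finset.range R, (1 / 2 ^ r : ℝ) *
      ∑ k ∈ Finset.range (2 ^ r), ((A (r + 1) (2 * k) - A (r + 1) (2 * k + 1)) / 2) ^ 2 ≤ M ^ 2

/-- PART BUS (150 lines; uses S_MON, S_LIM, S_DISC). Proof. `H = 200 C`. `x i` a vertex near
`(0, i H)`, `z L s` (`L : ℕ`) a vertex near `(L, tau(s) L)`, `tau(s) = s / √(100 - s²)`. For fixed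
`i, s` the integers `a_L = d(x 0, z L s) - d(x i, z L s)` are bounded by `d(x 0, x i)`, so there is an
integer `g i s` with `∀ᶠ L in (Filter.hyperfilter ℕ), a_L = g i s` (finitely many values and an
ultrafilter). `|g i s - i H s / 10| ≤ 6C + 1`: by `near` (twice) and the triangle inequality (four
points within `C`) `a_L` differs by at most `6C` from the difference in S_LIM with `y = i H`, and
`y²/L ≤ 1` for large `L`. Monge: for `i < j`, `s < t` S_MON for large `L` with `y0 = i H`, `y1 = j H`,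
`t0 = tau(s) L`, `t1 = tau(t) L`, `a = x i`, `b = x j`, `d = z L s`, `c = z L t`. Now S_DISC with
`h = 20 C`. -/
def S_BUS : Prop :=
  ∀ (V : Type) (G : SimpleGraph V) (f : V → E2) (C : ℝ), Rough G f C → ¬ HasK5Minor G → False

end Pool.Agent.L7h49.PM
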