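import Pool.Agent.L7h49.PM.Def

set_option autoImplicit false

/-!
# Project PM, second half: complete minors of every order

THEOREM. A connected graph (of any degrees) which is roughly isometric to the Euclidean plane with
multiplicative constant 1 has a `K_t` minor for every `t`. (So no graph of a proper minor-closed class
answers Kozma's question.)

PLAN. By the first half, beyond every vertical line there are two disjoint crossing geodesics (S_BUSQ,
S_XING). `t` disjoint tracks run to the right; a STATE is what has been built up to the line `x = X`: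
the track `k` ends near `(X, eta k)`. Steps: prolong and lift tracks (S_ROUTE, S_LIFTS), interchange two
neighbouring tracks by means of a crossing (S_CST, S_SWAP), join two neighbouring tracks by an edge
(S_HOOK). Any two tracks can be made neighbours (S_NEIGH), one pair after the other (S_FINK).
-/

namespace Pool.Agent.L7h49.PM

/-- `G` has a `K_t` minor: `t` pairwise disjoint connected vertex sets, any two of them joined by an
edge. -/
def HasKMinor {V : Type} (G : SimpleGraph V) (t : ℕ) : Prop :=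
  ∃ B : Fin t → Set V, (∀ i, (G.induce (B i)).Connected) ∧
    (∀ i j, i ≠ j → Disjoint (B i) (B j)) ∧
    ∀ i j, i ≠ j → ∃ u ∈ B i, ∃ v ∈ B j, G.Adj u v

/-- The state: `t` disjoint tracks `B k`, which have been built up to the line `x = X`, near which the
track `k` is only near its end `(X, eta k)`. -/
structure St {V : Type} (G : SimpleGraph V) (f : V → E2) (C : ℝ) {t : ℕ} (X : ℝ)
    (eta : Fin t → ℝ) (B : Fin t → Set V) : Prop where
  conn : ∀ k, (G.induce (B k)).Connected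
  disj : ∀ k l, k ≠ l → Disjoint (B k) (B l)
  sep : ∀ k l, k ≠ l → 200 * C ≤ |eta k - eta l|
  right : ∀ k, ∀ w ∈ B k, f w 0 ≤ X + 7 * C ∧ (X - 7 * C ≤ f w 0 → |f w 1 - eta k| ≤ 30 * C)
  endp : ∀ k w, ‖f w - pt X (eta k)‖ ≤ C → w ∈ B k

/-- PART GLUE (70 lines). Prolonging all tracks. Proof: `B k` and `N k` both contain a vertex near
`(X, eta k)` (Rough.net), so the union is connected. Disjoint: a vertex `w` of `B k ∩ N l`, `k ≠ l`, has
`X - 7C ≤ f w 0 ≤ X + 7C`, so `f w 1` is within `30C` of `eta k` and of `eta l`. `right`: for `w ∈ B k`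
one has `f w 0 ≤ X + 7C < X' - 7C`. -/
def S_GLUE : Prop :=
  ∀ (V : Type) (G : SimpleGraph V) (f : V → E2) (C : ℝ), Rough G f C →
    ∀ (t : ℕ) (X X' : ℝ) (eta eta' : Fin t → ℝ) (B N : Fin t → Set V), St G f C X eta B →
      X + 20 * C ≤ X' → (∀ k l, k ≠ l → 200 * C ≤ |eta' k - eta' l|) →
      (∀ k, (G.induce (N k)).Connected) → (∀ k l, k ≠ l → Disjoint (N k) (N l)) →
      (∀ k, ∀ w ∈ N k, X - 7 * C ≤ f w 0 ∧ (f w 0 ≤ X + 7 * C → |f w 1 - eta k| ≤ 30 * C) ∧
        f w 0 ≤ X' + 7 * C ∧ (X' - 7 * C ≤ f w 0 → |f w 1 - eta' k| ≤ 30 * C)) →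
      (∀ k w, ‖f w - pt X (eta k)‖ ≤ C → w ∈ N k) →
      (∀ k w, ‖f w - pt X' (eta' k)‖ ≤ C → w ∈ N k) →
      St G f C X' eta' (fun k => B k ∪ N k)

/-- PART ROUTE (130 lines; uses S_CON, S_GLUE). Prolong all tracks from `X` to `X'` and lift them from
`eta` to `eta' ≥ eta`, where the vertical pieces `[eta k, eta' k]` are far from each other.
Proof: S_GLUE with `N k = Fat` of the union of three boxes `[X, X+50C] × {eta k}`,
`{X+50C} × [eta k, eta' k]`, `[X+50C, X'] × {eta' k}` (convex sets, `IsPreconnected.union` at the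
corners); a vertex of `Fat A` is within `6C` of `A`. Different `k`: the heights of `N k` are in
`[eta k - 6C, eta' k + 6C]`, so they are disjoint. The last two claims are read off. -/
def S_ROUTE : Prop :=
  ∀ (V : Type) (G : SimpleGraph V) (f : V → E2) (C : ℝ), Rough G f C →
    ∀ (t : ℕ) (X X' : ℝ) (eta eta' : Fin t → ℝ) (B : Fin t → Set V), St G f C X eta B →
      X + 100 * C ≤ X' → (∀ k, eta k ≤ eta' k) →
      (∀ k l, k ≠ l → eta' k + 200 * C ≤ eta l ∨ eta' l + 200 * C ≤ eta k) →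
      ∃ B' : Fin t → Set V, (∀ k, B k ⊆ B' k) ∧ St G f C X' eta' B' ∧
        (∀ k, ∀ w ∈ B' k, w ∈ B k ∨ (eta k - 6 * C ≤ f w 1 ∧ f w 1 ≤ eta' k + 6 * C)) ∧
        ∀ k x w, X ≤ x → x ≤ X + 50 * C → ‖f w - pt x (eta k)‖ ≤ C → w ∈ B' k

/-- PART LIFTS (80 lines; uses S_ROUTE). Lift all tracks above the height `theta` by `H`. Proof:
induction on the number `m` of these tracks, for all `theta`, with the line `x = X + 100 m C` (and at
the end S_ROUTE once more with `eta' = eta`): let `k` be the lowest of them; first lift those above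
`eta k` (threshold `theta := eta k`), then lift the track `k` alone by S_ROUTE. By `sep` two tracks are
at distance `≥ 200C`: this gives the hypothesis of S_ROUTE. -/
def S_LIFTS : Prop :=
  ∀ (V : Type) (G : SimpleGraph V) (f : V → E2) (C : ℝ), Rough G f C →
    ∀ (t : ℕ) (X theta H : ℝ) (eta : Fin t → ℝ) (B : Fin t → Set V), St G f C X eta B → 0 ≤ H →
      ∃ B' : Fin t → Set V, (∀ k, B k ⊆ B' k) ∧
        St G f C (X + 100 * (t + 1) * C) (fun k => if theta < eta k then eta k + H else eta k) B'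

/-- PART SPL (60 lines). Cutting a connected set on its way from `S` to `T`. (Compare the file Min.lean
of the first half.) -/
def S_SPL : Prop :=
  ∀ (V : Type) (G : SimpleGraph V) (S T W : Set V), (G.induce W).Connected → (W ∩ S).Nonempty →
    (W ∩ T).Nonempty → Disjoint S T → (G.induce S).Connected →
    ∃ X : Set V, X ⊆ W ∧ Disjoint X T ∧ (G.induce (S ∪ X)).Connected ∧
      ∃ u ∈ S ∪ X, ∃ v ∈ T, G.Adj u v

/-- PART HOOK (110 lines; uses S_CON, S_ROUTE, S_SPL). Joining two neighbouring tracks by an edge.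
Proof: S_ROUTE with `X' = X + 100C`, `eta' = eta`. `T = Fat` of the box `{X+40C} × [eta i, eta j]`. A
vertex of `T` has `X + 34C ≤ f w 0 ≤ X + 46C`, so it is in none of the old `B k`, and in `B' k` only if
`f w 1` is within `6C` of `eta k`: `T` is disjoint from `B' k` for `k ≠ i, j`; it meets `B' i` and `B' j`
(last claim of S_ROUTE). S_SPL with `S = B' j`, `T = B' i`, `W = T`: replace `B' j` by `B' j ∪ X`.
`right` still holds, since `X + 46C < X' - 7C`. -/
def S_HOOK : Prop :=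
  ∀ (V : Type) (G : SimpleGraph V) (f : V → E2) (C : ℝ), Rough G f C →
    ∀ (t : ℕ) (X : ℝ) (eta : Fin t → ℝ) (B : Fin t → Set V) (i j : Fin t), St G f C X eta B →
      eta i < eta j → (∀ k, k ≠ i → k ≠ j → eta k < eta i ∨ eta j < eta k) →
      ∃ B' : Fin t → Set V, (∀ k, B k ⊆ B' k) ∧ St G f C (X + 100 * C) eta B' ∧
        ∃ u ∈ B' i, ∃ v ∈ B' j, G.Adj u v

/-- Where a geodesic from `(0, y)` to `(L, t)` can be, if its slope is positive. -/
def Rg2 (C L y t X Y : ℝ) : Prop :=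
  -(7 * C) ≤ X ∧ X ≤ L + 7 * C ∧ -(100 * C) ≤ Y ∧ Y ≤ t + 100 * C ∧
  (X ≤ 7 * C → |Y - y| ≤ 30 * C) ∧ (L - 7 * C ≤ X → |Y - t| ≤ 30 * C)

/-- PART RG2 (60 lines; uses S_REG or its proof). As S_REG, for a positive slope. New: the lower and the
upper bound of `Y`. Proof: `e = (c - a)/‖c - a‖` has `e_y ≥ 1/22`
(`c_y - a_y ≥ L/20 - L/1000 - 2C ≥ (47/1000) L`, `‖c - a‖ ≤ (101/100) L`), and
`⟨w - a, e⟩ ≥ ‖w - a‖ - 3C`. If `w_y = a_y - v`, `v > 0`, then `⟨w - a, e⟩ ≤ ‖w - a‖ - v e_y`, so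
`v ≤ 66C`. In the same way at `c`. For `X ≤ 7C`: `(3/5) rho ≤ 7C + C + 6C` gives `rho ≤ 24C`. -/
def S_RG2 : Prop :=
  ∀ (L C y t : ℝ) (a c w : E2), 1 ≤ C → 10000 * C ≤ L → 0 ≤ y → y ≤ L / 1000 → L / 20 ≤ t →
    t ≤ L / 9 → ‖a - pt 0 y‖ ≤ C → ‖c - pt L t‖ ≤ C →
    ‖w - a‖ + ‖w - c‖ ≤ ‖a - c‖ + 3 * C → Rg2 C L y t (w 0) (w 1)

/-- PART BUSQ (170 lines; uses S_LIM, S_DISC; adapt the proof of S_BUS). There are violations of the
Monge inequality for arbitrarily large `L`. Proof: otherwise, as in S_BUS, but only with the slopes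
`tau(s') = s' / √(100 - s'^2)`, `s' = (1 + s)/2 ∈ [1/2, 1]` for `s ∈ [0, 1]` (so
`L/20 ≤ tau L ≤ L/9`), one gets integers `G n s` with `|G n s - n H (1 + s)/20| ≤ 6C + 1`, `H = 200C`,
and `G n s - G m s` monotone in `s`; apply S_DISC to `g n s = G n s - G n 0`, `h = H / 20 = 10C`,
`K = 12C + 2`. -/
def S_BUSQ : Prop :=
  ∀ (V : Type) (G : SimpleGraph V) (f : V → E2) (C : ℝ), Rough G f C → ∀ M : ℝ,
    ∃ (L y0 y1 t0 t1 : ℝ) (a b c d : V), M ≤ L ∧ 0 ≤ y0 ∧ y0 + 200 * C ≤ y1 ∧ y1 ≤ L / 1000 ∧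
      L / 20 ≤ t0 ∧ t0 + 200 * C ≤ t1 ∧ t1 ≤ L / 9 ∧
      ‖f a - pt 0 y0‖ ≤ C ∧ ‖f b - pt 0 y1‖ ≤ C ∧ ‖f c - pt L t1‖ ≤ C ∧ ‖f d - pt L t0‖ ≤ C ∧
      G.dist a c + G.dist b d < G.dist a d + G.dist b c

/-- Two disjoint crossing connected sets `P` (from `a` to `c`) and `Q` (from `b` to `d`) in the frame
with the origin `(R, W)`. -/
structure Xing {V : Type} (G : SimpleGraph V) (f : V → E2) (C R W L y0 y1 t0 t1 : ℝ)
    (a b c d : V) (P Q : Set V) : Prop where
  large : 1000 * C ≤ L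
  hy0 : 0 ≤ y0
  hy : y0 + 200 * C ≤ y1
  ht0 : 0 ≤ t0
  ht : t0 + 200 * C ≤ t1
  na : ‖f a - pt R (W + y0)‖ ≤ C
  nb : ‖f b - pt R (W + y1)‖ ≤ C
  nc : ‖f c - pt (R + L) (W + t1)‖ ≤ C
  nd : ‖f d - pt (R + L) (W + t0)‖ ≤ C
  aP : a ∈ P
  cP : c ∈ P
  bQ : b ∈ Q
  dQ : d ∈ Q
  conP : (G.induce P).Connected
  conQ : (G.induce Q).Connected
  disj : Disjoint P Q
  rP : ∀ w ∈ P, Rg2 C L y0 t1 (f w 0 - R) (f w 1 - W)
  rQ : ∀ w ∈ Q, Rg2 C L y1 t0 (f w 0 - R) (f w 1 - W)

/-- PART XING (120 lines; uses S_BUSQ, S_RG2). Proof: S_BUSQ for `fun v => f v - pt R W` (again Rough),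
`M = 10000 C`; `P`, `Q` the supports of shortest walks (`Walk.connected_induce_support`); a common
vertex would give `d(a,d) + d(b,c) ≤ d(a,c) + d(b,d)`; compare the proof of S_MON
(Pool/Agent/L7h66/PM/Mon.lean: dist_split, ell). -/
def S_XING : Prop :=
  ∀ (V : Type) (G : SimpleGraph V) (f : V → E2) (C : ℝ), Rough G f C → ∀ R W : ℝ,
    ∃ (L y0 y1 t0 t1 : ℝ) (a b c d : V) (P Q : Set V), Xing G f C R W L y0 y1 t0 t1 a b c d P Q

/-- PART CST (170 lines; uses S_CON, S_GLUE). The crossing step: the tracks `i` (below) and `j` (above)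
are interchanged, all others run horizontally. Proof: S_GLUE with `X = R`, `X' = R + L`,
`N i = Fat {(R, W+y0)} ∪ P ∪ Fat {(R+L, W+t1)}`, `N j = Fat {(R, W+y1)} ∪ Q ∪ Fat {(R+L, W+t0)}`,
`N k = Fat ([R, R+L] × {eta k})` for the others. Connected: `a ∈ P ∩ Fat {(R, W+y0)}` and so on.
Disjoint: for `k ≠ i, j` the heights of `N k` are within `6C` of `eta k ≤ W - 200C` or
`≥ W + t1 + 200C`, those of `P`, `Q` in `[W - 100C, W + t1 + 100C]` (`t0 ≤ t1`); the small sets
`Fat {..}` are within `6C` of their points; `P` near `x = R` or `x = R + L` is only near its ends. -/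
def S_CST : Prop :=
  ∀ (V : Type) (G : SimpleGraph V) (f : V → E2) (C : ℝ), Rough G f C →
    ∀ (t : ℕ) (R W L y0 y1 t0 t1 : ℝ) (a b c d : V) (P Q : Set V),
      Xing G f C R W L y0 y1 t0 t1 a b c d P Q →
      ∀ (eta : Fin t → ℝ) (B : Fin t → Set V) (i j : Fin t), St G f C R eta B → i ≠ j →
        eta i = W + y0 → eta j = W + y1 →
        (∀ k, k ≠ i → k ≠ j → eta k ≤ W - 200 * C ∨ W + t1 + 200 * C ≤ eta k) →
        ∃ B' : Fin t → Set V, (∀ k, B k ⊆ B' k) ∧
          St G f C (R + L) (fun k => if k = i then W + t1 else if k = j then W + t0 else eta k) B'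

/-- PART SWAP (130 lines; uses S_XING, S_LIFTS, S_ROUTE, S_CST). Interchanging two neighbouring tracks.
Proof: `W = eta j + 200C`, `R = X + 100 (t + 5) C`; take the crossing of S_XING in the frame `(R, W)`.
S_LIFTS with `theta = eta j`, `H = t1 + y1 + 1000C` (to `X + 100 (t+1) C`); S_ROUTE lifts `j` alone to
`W + y1`, then S_ROUTE lifts `i` alone to `W + y0`, S_ROUTE (`eta' = eta`) goes to the line `x = R`;
S_CST. By `sep` the tracks below are at heights `≤ eta i - 200C ≤ W - 600C + 200C`, those above are at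
heights `≥ eta j + 200C + H = W + H`. -/
def S_SWAP : Prop :=
  ∀ (V : Type) (G : SimpleGraph V) (f : V → E2) (C : ℝ), Rough G f C →
    ∀ (t : ℕ) (X : ℝ) (eta : Fin t → ℝ) (B : Fin t → Set V) (i j : Fin t), St G f C X eta B →
      eta i < eta j → (∀ k, k ≠ i → k ≠ j → eta k < eta i ∨ eta j < eta k) →
      ∃ (X' : ℝ) (eta' : Fin t → ℝ) (B' : Fin t → Set V), (∀ k, B k ⊆ B' k) ∧
        St G f C X' eta' B' ∧ eta' j < eta' i ∧
        (∀ k, k ≠ i → k ≠ j → eta k < eta i → eta' k < eta' j) ∧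
        (∀ k, k ≠ i → k ≠ j → eta j < eta k → eta' i < eta' k) ∧
        ∀ k l, k ≠ i → k ≠ j → l ≠ i → l ≠ j → eta k < eta l → eta' k < eta' l

/-- PART NEIGH (90 lines; uses S_SWAP, S_HOOK). Any two tracks can be joined by an edge. Proof: we may
assume `eta i < eta j`; strong induction on the number of the `l` with `eta i < eta l < eta j`. None:
S_HOOK. Otherwise let `k` be such an `l` with the least `eta l`; `i` and `k` are neighbours; S_SWAP for
`i`, `k`. Now `eta' k < eta' i < eta' j`, and `eta' i < eta' l < eta' j` implies `l ≠ k` and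
`eta i < eta l < eta j`. -/
def S_NEIGH : Prop :=
  ∀ (V : Type) (G : SimpleGraph V) (f : V → E2) (C : ℝ), Rough G f C →
    ∀ (t : ℕ) (X : ℝ) (eta : Fin t → ℝ) (B : Fin t → Set V) (i j : Fin t), St G f C X eta B →
      i ≠ j → ∃ (X' : ℝ) (eta' : Fin t → ℝ) (B' : Fin t → Set V), (∀ k, B k ⊆ B' k) ∧
        St G f C X' eta' B' ∧ ∃ u ∈ B' i, ∃ v ∈ B' j, G.Adj u v

/-- PART FINK (80 lines; uses S_CON, S_NEIGH). Proof: the first state: `X = 0`, `eta k = 200 C k`,
`B k = Fat {(0, eta k)}` (within `6C` of the point; contains all `w` with `‖f w - (0, eta k)‖ ≤ C`). For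
every finite set of pairs `i ≠ j` there is a state in which all of them are joined (induction, an edge
stays: `B ⊆ B'`). Take all pairs. -/
def S_FINK : Prop :=
  ∀ (V : Type) (G : SimpleGraph V) (f : V → E2) (C : ℝ), Rough G f C → ∀ t : ℕ, HasKMinor G t

end Pool.Agent.L7h49.PM
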