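import Pool.Agent.L7h49.PM.Def2

set_option autoImplicit false

/-!
# Project PM, the strongest form: an infinite complete minor

THEOREM. A connected graph (of any degrees) which is roughly isometric to the Euclidean plane with
multiplicative constant 1 has an infinite complete minor. Proof: states with more and more tracks; the
tracks of the `n`-th state, all joined to each other, are prolonged in the next one, and one new track is
added at the bottom.
-/

namespace Pool.Agent.L7h49.PM

/-- `G` has an infinite complete minor: infinitely many pairwise disjoint connected vertex sets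
`B 0, B 1, ...`, any two of them joined by an edge. -/
def HasInfMinor {V : Type} (G : SimpleGraph V) : Prop :=
  ∃ B : ℕ → Set V, (∀ i, (G.induce (B i)).Connected) ∧
    (∀ i j, i ≠ j → Disjoint (B i) (B j)) ∧
    ∀ i j, i ≠ j → ∃ u ∈ B i, ∃ v ∈ B j, G.Adj u v

/-- PART ADD (60 lines; uses S_CON). One more track. Proof: a height `z` with `z + 200C ≤ eta k` for all
`k` (finitely many); `B' = Fin.snoc B (Fat {(X, z)})`, `eta' = Fin.snoc eta z`. A vertex of
`B k ∩ Fat {(X, z)}` is within `6C` of `(X, z)`, so `X - 7C ≤ f w 0`, `|f w 1 - eta k| ≤ 30C`: false. -/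
def S_ADD : Prop :=
  ∀ (V : Type) (G : SimpleGraph V) (f : V → E2) (C : ℝ), Rough G f C →
    ∀ (t : ℕ) (X : ℝ) (eta : Fin t → ℝ) (B : Fin t → Set V), St G f C X eta B →
      ∃ (eta' : Fin (t + 1) → ℝ) (B' : Fin (t + 1) → Set V), St G f C X eta' B' ∧
        ∀ k : Fin t, B k ⊆ B' k.castSucc

/-- PART ALLP (50 lines; uses S_NEIGH). All pairs of tracks can be joined (as in the proof of S_FINK,
from an arbitrary state). -/
def S_ALLP : Prop :=
  ∀ (V : Type) (G : SimpleGraph V) (f : V → E2) (C : ℝ), Rough G f C →
    ∀ (t : ℕ) (X : ℝ) (eta : Fin t → ℝ) (B : Fin t → Set V), St G f C X eta B →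
      ∃ (X' : ℝ) (eta' : Fin t → ℝ) (B' : Fin t → Set V), (∀ k, B k ⊆ B' k) ∧
        St G f C X' eta' B' ∧ ∀ i j, i ≠ j → ∃ u ∈ B' i, ∃ v ∈ B' j, G.Adj u v

/-- PART INF (120 lines; uses S_ADD, S_ALLP). Proof: by recursion (`exists_seq..` or a recursion on the
subtype / sigma type of states) states with `n` tracks `B n : Fin n → Set V`, the empty state for
`n = 0`, `B n k ⊆ B (n+1) k.castSucc`, in which all pairs are joined. The branch sets are
`⋃ n > k, B n k`: increasing unions, so connected and disjoint, and joined. -/
def S_INF : Prop :=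
  ∀ (V : Type) (G : SimpleGraph V) (f : V → E2) (C : ℝ), Rough G f C → HasInfMinor G

end Pool.Agent.L7h49.PM
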