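import Pool.Agent.L7h49.PM.Def5

set_option autoImplicit false
namespace Pool.Agent.L7h49.PM

theorem quant_final (hF : S_FINKB) (V : Type) (G : SimpleGraph V) (hG : G.Connected) (t : ℕ)
    (hK : ¬ HasKMinor G t) (f : V → EuclideanSpace ℝ (Fin 2)) (C D : ℝ) (hC : 1 ≤ C)
    (hf : ∀ x y, |‖f x - f y‖ - (G.dist x y : ℝ)| < C)
    (hnet : ∀ z : EuclideanSpace ℝ (Fin 2), ‖z‖ ≤ D → ∃ x, ‖f x - z‖ < C) :
    D ≤ (t + 1) ^ 4 * Real.exp (9000000 * C ^ 2) := by
  by_contra hcon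
  push Not at hcon
  apply hK
  set E : ℝ := Real.exp (8000000 * C ^ 2) with hE
  have hCsq : 1 ≤ C ^ 2 := by nlinarith
  have hE1 : 100 * C ≤ E := by
    have := Real.add_one_le_exp (8000000 * C ^ 2)
    nlinarith
  have hE0 : 0 < E := Real.exp_pos _
  have ht : (0 : ℝ) ≤ t := Nat.cast_nonneg t
  have hL : max E (100 * (t + 5) * C) ≤ (t + 5) * E := by
    apply max_le
    · nlinarith
    · nlinarith
  refine hF V G f C D ⟨hC, hG, hf, hnet⟩ t (max E (100 * (t + 5) * C)) (le_max_left _ _)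
    (le_max_right _ _) (le_trans ?_ hcon.le)
  have h300 : (300 : ℝ) ≤ Real.exp (1000000 * C ^ 2) := by
    have := Real.add_one_le_exp (1000000 * C ^ 2)
    nlinarith
  have hsplit : Real.exp (9000000 * C ^ 2) = Real.exp (1000000 * C ^ 2) * E := by
    rw [hE, ← Real.exp_add]
    ring_nf
  have h3 : (0 : ℝ) < (t + 1) ^ 3 := by positivity
  calc 60 * ((t : ℝ) + 1) ^ 3 * max E (100 * (t + 5) * C)
      ≤ 60 * ((t : ℝ) + 1) ^ 3 * ((t + 5) * E) := mul_le_mul_of_nonneg_left hL (by positivity)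
    _ ≤ 60 * ((t : ℝ) + 1) ^ 3 * ((5 * (t + 1)) * E) := by
        apply mul_le_mul_of_nonneg_left ?_ (by positivity)
        apply mul_le_mul_of_nonneg_right ?_ hE0.le
        linarith
    _ = ((t : ℝ) + 1) ^ 4 * (300 * E) := by ring
    _ ≤ ((t : ℝ) + 1) ^ 4 * (Real.exp (1000000 * C ^ 2) * E) := by
        apply mul_le_mul_of_nonneg_left ?_ (by positivity)
        exact mul_le_mul_of_nonneg_right h300 hE0.le
    _ = ((t : ℝ) + 1) ^ 4 * Real.exp (9000000 * C ^ 2) := by rw [hsplit]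

end Pool.Agent.L7h49.PM
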